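import Mathlib

/-! # Fixed point property: basic facts -/

set_option autoImplicit false

namespace Q10.Fpp

variable {α β : Type}

/-- order relations, as a predicate on binary relations -/
structure PO (r : α → α → Prop) : Prop where
  refl : ∀ x, r x x
  antisymm : ∀ x y, r x y → r y x → x = y
  trans : ∀ x y z, r x y → r y z → r x z

/-- order preserving self-maps -/
def Mono (r : α → α → Prop) (f : α → α) : Prop := ∀ x y, r x y → r (f x) (f y)

/-- the fixed point property -/
def FPP (r : α → α → Prop) : Prop := ∀ f : α → α, (∀ x y, r x y → r (f x) (f y)) → ∃ x, f x = x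

/-- `r` with one more pair -/
def add (r : α → α → Prop) (a b : α) : α → α → Prop := fun x y => r x y ∨ (x = a ∧ y = b)

/-- one step -/
def Step (r s : α → α → Prop) : Prop := ∃ a b, ¬ r a b ∧ s = add r a b

theorem exists_fix_of_le [Finite α] {r : α → α → Prop} (hr : PO r) {f : α → α} (hf : Mono r f)
    {x : α} (hx : r x (f x)) : ∃ y, f y = y := by
  have hmono : ∀ n, r (f^[n] x) (f^[n + 1] x) := by
    intro n
    induction n with
    | zero => simpa using hx
    | succ n ih =>
      rw [Function.iterate_succ_apply' f n, Function.iterate_succ_apply' f (n + 1)]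
      exact hf _ _ ih
  have hle : ∀ n k, r (f^[n] x) (f^[n + k] x) := by
    intro n k
    induction k with
    | zero => exact hr.refl _
    | succ k ih => exact hr.trans _ _ _ ih (hmono (n + k))
  obtain ⟨i, j, hij, he⟩ := Finite.exists_ne_map_eq_of_infinite (fun n : ℕ => f^[n] x)
  rcases lt_or_gt_of_ne hij with h | h
  · refine ⟨f^[i] x, ?_⟩
    rw [← Function.iterate_succ_apply' f i]
    refine hr.antisymm _ _ ?_ (hmono i)
    rw [he]
    obtain ⟨k, rfl⟩ : ∃ k, j = i + 1 + k := ⟨j - (i + 1), by omega⟩
    exact hle (i + 1) k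
  · refine ⟨f^[j] x, ?_⟩
    rw [← Function.iterate_succ_apply' f j]
    refine hr.antisymm _ _ ?_ (hmono j)
    rw [← he]
    obtain ⟨k, rfl⟩ : ∃ k, i = j + 1 + k := ⟨i - (j + 1), by omega⟩
    exact hle (j + 1) k

theorem PO.flip {r : α → α → Prop} (hr : PO r) : PO (Function.swap r) :=
  ⟨fun _ => hr.refl _, fun _ _ h1 h2 => hr.antisymm _ _ h2 h1, fun _ _ _ h1 h2 => hr.trans _ _ _ h2 h1⟩

theorem exists_fix_of_ge [Finite α] {r : α → α → Prop} (hr : PO r) {f : α → α} (hf : Mono r f)
    {x : α} (hx : r (f x) x) : ∃ y, f y = y :=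
  exists_fix_of_le (r := Function.swap r) hr.flip (fun x y h => hf y x h) hx

/-- comparable monotone maps -/
def Cmp (r : α → α → Prop) (f g : α → α) : Prop := Mono r f ∧ Mono r g ∧ ∀ x, r (f x) (g x)

/-- homotopic maps -/
def Conn (r : α → α → Prop) (f g : α → α) : Prop := Relation.EqvGen (Cmp r) f g

theorem Conn.le {r : α → α → Prop} {f g : α → α} (hf : Mono r f) (hg : Mono r g)
    (h : ∀ x, r (f x) (g x)) : Conn r f g := .rel _ _ ⟨hf, hg, h⟩

theorem Conn.ge {r : α → α → Prop} {f g : α → α} (hf : Mono r f) (hg : Mono r g)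
    (h : ∀ x, r (g x) (f x)) : Conn r f g := .symm _ _ (.rel _ _ ⟨hg, hf, h⟩)

theorem Conn.trans {r : α → α → Prop} {f g h : α → α} (h1 : Conn r f g) (h2 : Conn r g h) :
    Conn r f h := Relation.EqvGen.trans _ _ _ h1 h2

theorem fix_iff_of_cmp [Finite α] {r : α → α → Prop} (hr : PO r) {f g : α → α} (h : Cmp r f g) :
    (∃ x, f x = x) ↔ ∃ x, g x = x := by
  obtain ⟨hf, hg, h⟩ := h
  constructor
  · rintro ⟨x, hx⟩
    refine exists_fix_of_le hr hg (x := x) ?_
    have := h x
    rwa [hx] at this
  · rintro ⟨x, hx⟩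
    refine exists_fix_of_ge hr hf (x := x) ?_
    have := h x
    rwa [hx] at this

/-- a poset in which the identity is homotopic to a constant map has the fixed point property -/
theorem fpp_of_conn [Finite α] {r : α → α → Prop} (hr : PO r) {c : α}
    (h : Conn r id (fun _ => c)) : FPP r := by
  intro f hf
  have key : ∀ g g' : α → α, Conn r g g' → ((∃ x, f (g x) = x) ↔ ∃ x, f (g' x) = x) := by
    intro g g' hc
    induction hc with
    | rel g g' hc =>
      refine fix_iff_of_cmp hr (f := fun x => f (g x)) (g := fun x => f (g' x)) ⟨?_, ?_, ?_⟩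
      · exact fun x y hxy => hf _ _ (hc.1 _ _ hxy)
      · exact fun x y hxy => hf _ _ (hc.2.1 _ _ hxy)
      · exact fun x => hf _ _ (hc.2.2 x)
    | refl g => exact Iff.rfl
    | symm _ _ _ ih => exact ih.symm
    | trans _ _ _ _ _ ih1 ih2 => exact ih1.trans ih2
  exact (key id (fun _ => c) h).2 ⟨f c, rfl⟩

theorem mono_id (r : α → α → Prop) : Mono r id := fun _ _ h => h

theorem mono_const {r : α → α → Prop} (hr : PO r) (c : α) : Mono r (fun _ => c) :=
  fun _ _ _ => hr.refl c

/-- a map onto points comparable with `c` can be deformed to the constant map `c` -/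
theorem conn_const_of_comparable {r : α → α → Prop} (hr : PO r) {g : α → α} (hg : Mono r g) {c : α}
    (h : ∀ x, r c (g x) ∨ r (g x) c) : Conn r g (fun _ => c) := by
  classical
  have hm : Mono r (fun x => if r c (g x) then g x else c) := by
    intro x y hxy
    simp only
    split_ifs with h1 h2 h2
    · exact hg _ _ hxy
    · exact absurd (hr.trans _ _ _ h1 (hg _ _ hxy)) h2
    · exact h2
    · exact hr.refl _
  refine (Conn.le hg hm ?_).trans (Conn.ge hm (mono_const hr c) ?_)
  · intro x
    by_cases h1 : r c (g x)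
    · rw [if_pos h1]; exact hr.refl _
    · rw [if_neg h1]; exact (h x).resolve_left h1
  · intro x
    by_cases h1 : r c (g x)
    · rw [if_pos h1]; exact h1
    · rw [if_neg h1]; exact hr.refl _

/-- a poset with a point comparable to all points has the fixed point property -/
theorem fpp_of_cone [Finite α] {r : α → α → Prop} (hr : PO r) {c : α} (h : ∀ x, r c x ∨ r x c) :
    FPP r := fpp_of_conn hr (conn_const_of_comparable hr (mono_id r) h)

theorem fpp_of_total [Finite α] [Nonempty α] {r : α → α → Prop} (hr : PO r)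
    (h : ∀ x y, r x y ∨ r y x) : FPP r :=
  fpp_of_cone hr (c := Classical.arbitrary α) fun x => h _ x

/-- disconnected posets lack the fixed point property -/
theorem not_fpp_of_split {r : α → α → Prop} (hr : PO r) (C : α → Prop) (h : ∀ x y, r x y → (C x ↔ C y)) {a b : α}
    (ha : C a) (hb : ¬ C b) : ¬ FPP r := by
  classical
  intro hF
  obtain ⟨x, hx⟩ := hF (fun x => if C x then b else a) (by
    intro x y hxy
    have h1 := h x y hxy
    by_cases hx : C x
    · have hy := h1.1 hx
      simp only [hx, hy, if_true]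
      exact hr.refl _
    · have hy : ¬ C y := fun hy => hx (h1.2 hy)
      simp only [hx, hy, if_false]
      exact hr.refl _)
  by_cases hc : C x
  · rw [if_pos hc] at hx
    rw [hx] at hb
    exact hb hc
  · rw [if_neg hc] at hx
    rw [hx] at ha
    exact hc ha

end Q10.Fpp
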