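import Pool.Agent.Q10.Fpp.Paths

/-! # Counting pairs -/

set_option autoImplicit false

namespace Q10.Fpp

variable {α : Type}

/-- number of related pairs -/
noncomputable def sz (r : α → α → Prop) : ℕ := {p : α × α | r p.1 p.2}.ncard

/-- number of ordered incomparable pairs -/
noncomputable def ic (r : α → α → Prop) : ℕ := {p : α × α | ¬ r p.1 p.2 ∧ ¬ r p.2 p.1}.ncard

theorem sz_add [Finite α] {r : α → α → Prop} {a b : α} (h : ¬ r a b) :
    sz (add r a b) = sz r + 1 := by
  unfold sz
  have e : {p : α × α | add r a b p.1 p.2} = insert (a, b) {p : α × α | r p.1 p.2} := by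
    ext ⟨x, y⟩
    simp only [add, Set.mem_setOf_eq, Set.mem_insert_iff, Prod.mk.injEq]
    tauto
  rw [e, Set.ncard_insert_of_notMem (by simpa using h)]

theorem sz_le [Finite α] {r s : α → α → Prop} (h : ∀ x y, r x y → s x y) : sz r ≤ sz s :=
  Set.ncard_le_ncard (fun p hp => h _ _ hp)

theorem eq_of_sz [Finite α] {r s : α → α → Prop} (h : ∀ x y, r x y → s x y) (hs : sz s ≤ sz r) :
    r = s := by
  have e := Set.eq_of_subset_of_ncard_le (s := {p : α × α | r p.1 p.2})
    (t := {p : α × α | s p.1 p.2}) (fun p hp => h _ _ hp) hs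
  funext x y
  apply propext
  have := Set.ext_iff.1 e (x, y)
  simpa using this

theorem ncard_diag (α : Type) : {p : α × α | p.1 = p.2}.ncard = Nat.card α := by
  have e : {p : α × α | p.1 = p.2} = Set.range (fun x : α => (x, x)) := by
    ext ⟨x, y⟩
    simp [Prod.ext_iff]
  rw [e, ← Set.image_univ, Set.ncard_image_of_injective _ (fun x y h => (Prod.ext_iff.1 h).1),
    Set.ncard_univ]

theorem sz_eq : sz (Eq : α → α → Prop) = Nat.card α := ncard_diag α

theorem two_sz [Finite α] {r : α → α → Prop} (hr : PO r) :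
    2 * sz r + ic r = Nat.card α ^ 2 + Nat.card α := by
  have h1 := Set.ncard_union_add_ncard_inter {p : α × α | r p.1 p.2} {p : α × α | r p.2 p.1}
  have h2 : {p : α × α | r p.2 p.1}.ncard = {p : α × α | r p.1 p.2}.ncard := by
    have : {p : α × α | r p.2 p.1} = Prod.swap '' {p : α × α | r p.1 p.2} := by
      ext ⟨x, y⟩
      simp
    rw [this, Set.ncard_image_of_injective _ Prod.swap_injective]
  have h3 : {p : α × α | r p.1 p.2} ∩ {p : α × α | r p.2 p.1} = {p : α × α | p.1 = p.2} := by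
    ext ⟨x, y⟩
    simp only [Set.mem_inter_iff, Set.mem_setOf_eq]
    constructor
    · rintro ⟨h, h'⟩
      exact hr.antisymm _ _ h h'
    · rintro rfl
      exact ⟨hr.refl _, hr.refl _⟩
  have h4 := Set.ncard_add_ncard_compl ({p : α × α | r p.1 p.2} ∪ {p : α × α | r p.2 p.1})
  have h5 : ({p : α × α | r p.1 p.2} ∪ {p : α × α | r p.2 p.1})ᶜ =
      {p : α × α | ¬ r p.1 p.2 ∧ ¬ r p.2 p.1} := by
    ext ⟨x, y⟩
    simp
  rw [h3, ncard_diag, h2] at h1
  rw [h5, Nat.card_prod] at h4
  unfold sz ic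
  nlinarith

theorem exists_incomparable [Finite α] {r : α → α → Prop} (hr : PO r) (h : ¬ FPP r) (x : α) :
    ∃ y, ¬ r x y ∧ ¬ r y x := by
  by_contra hne
  push Not at hne
  refine h (fpp_of_cone hr (c := x) fun y => ?_)
  by_cases h1 : r x y
  · exact Or.inl h1
  · exact Or.inr (hne y h1)

theorem card_le_ic [Finite α] {r : α → α → Prop} (hr : PO r) (h : ¬ FPP r) :
    Nat.card α ≤ ic r := by
  choose σ hσ using exists_incomparable hr h
  rw [← Set.ncard_univ]
  refine Set.ncard_le_ncard_of_injOn (fun x => (x, σ x)) (fun x _ => hσ x) ?_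
  intro x _ y _ hxy
  exact (Prod.ext_iff.1 hxy).1

/-- comparability graph -/
def cg (r : α → α → Prop) : SimpleGraph α where
  Adj x y := x ≠ y ∧ (r x y ∨ r y x)
  symm := ⟨fun _ _ h => ⟨h.1.symm, h.2.symm⟩⟩
  loopless := ⟨fun _ h => h.1 rfl⟩

theorem sz_ge [Finite α] [Nonempty α] {r : α → α → Prop} (hr : PO r) (h : FPP r) :
    2 * Nat.card α ≤ sz r + 1 := by
  have hc : (cg r).Connected := by
    rw [SimpleGraph.connected_iff]
    refine ⟨?_, inferInstance⟩
    intro u v
    by_contra huv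
    refine not_fpp_of_split hr (fun x => (cg r).Reachable u x) ?_ (SimpleGraph.Reachable.refl u)
      huv h
    intro x y hxy
    by_cases he : x = y
    · rw [he]
    · have h1 : (cg r).Adj x y := ⟨he, Or.inl hxy⟩
      exact ⟨fun h => h.trans h1.reachable, fun h => h.trans h1.symm.reachable⟩
  have h1 := hc.card_vert_le_card_edgeSet_add_one
  have h2 : (cg r).edgeSet ⊆ (fun p : α × α => s(p.1, p.2)) '' {p : α × α | r p.1 p.2 ∧ p.1 ≠ p.2} := by
    intro e
    induction e using Sym2.ind with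
    | _ x y =>
      intro he
      rw [SimpleGraph.mem_edgeSet] at he
      rcases he.2 with h | h
      · exact ⟨(x, y), ⟨h, he.1⟩, rfl⟩
      · exact ⟨(y, x), ⟨h, he.1.symm⟩, Sym2.eq_swap⟩
  have h3 := Set.ncard_le_ncard h2
  have h4 := Set.ncard_image_le (f := fun p : α × α => s(p.1, p.2))
    (s := {p : α × α | r p.1 p.2 ∧ p.1 ≠ p.2})
  have h5 : sz r = {p : α × α | r p.1 p.2 ∧ p.1 ≠ p.2}.ncard + {p : α × α | p.1 = p.2}.ncard := by
    unfold sz
    rw [← Set.ncard_union_eq]
    · congr 1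
      ext ⟨x, y⟩
      simp only [Set.mem_setOf_eq, Set.mem_union]
      constructor
      · intro h
        by_cases he : x = y
        · exact Or.inr he
        · exact Or.inl ⟨h, he⟩
      · rintro (h | rfl)
        · exact h.1
        · exact hr.refl _
    · rw [Set.disjoint_left]
      rintro ⟨x, y⟩ h h'
      exact h.2 h'
  rw [ncard_diag] at h5
  have h6 : Nat.card (cg r).edgeSet = (cg r).edgeSet.ncard := rfl
  omega

theorem fpp_pred [Finite α] {r : α → α → Prop} {a b : α} (hr : PO r) (hr' : PO (add r a b))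
    (hab : ¬ r a b) (hF : ¬ FPP (add r a b)) (hic : ic (add r a b) ≤ Nat.card α) : FPP r := by
  classical
  choose σ hσ using exists_incomparable hr' hF
  have hrange : Set.range (fun x => (x, σ x)) =
      {p : α × α | ¬ add r a b p.1 p.2 ∧ ¬ add r a b p.2 p.1} := by
    refine Set.eq_of_subset_of_ncard_le ?_ ?_
    · rintro _ ⟨x, rfl⟩
      exact hσ x
    · rw [← Set.image_univ, Set.ncard_image_of_injective _ (fun x y h => (Prod.ext_iff.1 h).1),
        Set.ncard_univ]
      exact hic
  have huniq : ∀ x y, ¬ add r a b x y → ¬ add r a b y x → y = σ x := by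
    intro x y h1 h2
    have : (x, y) ∈ Set.range (fun x => (x, σ x)) := by
      rw [hrange]
      exact ⟨h1, h2⟩
    obtain ⟨z, hz⟩ := this
    obtain ⟨rfl, h⟩ := Prod.ext_iff.1 hz
    exact h.symm
  have hcomp : ∀ x y, y ≠ σ x → add r a b x y ∨ add r a b y x := by
    intro x y h
    by_contra hne
    push Not at hne
    exact h (huniq x y hne.1 hne.2)
  have hσσ : ∀ x, σ (σ x) = x := fun x => (huniq (σ x) x (hσ x).2 (hσ x).1).symm
  have hne : a ≠ b := by rintro rfl; exact hab (hr.refl _)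
  have hrr : ∀ x y, r x y → add r a b x y := fun x y h => Or.inl h
  have hr'ab : add r a b a b := Or.inr ⟨rfl, rfl⟩
  have hr1 : ∀ x y, add r a b x y → x ≠ a → r x y := by
    rintro x y (h | h) hx
    · exact h
    · exact absurd h.1 hx
  have hr2 : ∀ x y, add r a b x y → y ≠ b → r x y := by
    rintro x y (h | h) hx
    · exact h
    · exact absurd h.2 hx
  have hb'a : σ b ≠ a := by
    intro h
    have := (hσ b).2
    rw [h] at this
    exact this hr'ab
  have hb'b : σ b ≠ b := by
    intro h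
    have := (hσ b).2
    rw [h] at this
    exact this (hr'.refl _)
  have ha'a : σ a ≠ a := by
    intro h
    have := (hσ a).2
    rw [h] at this
    exact this (hr'.refl _)
  have hab' : r a (σ b) := by
    rcases hcomp a (σ b) (fun h => hne (by rw [← hσσ a, ← h, hσσ])) with h | h
    · exact hr2 _ _ h hb'b
    · exact absurd (hr'.trans _ _ _ h hr'ab) (hσ b).2
  obtain ⟨f, hf⟩ : ∃ f : α → α, f = fun x => if x = a then σ b else x := ⟨_, rfl⟩
  have hfa : f a = σ b := by rw [hf]; exact if_pos rfl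
  have hfx : ∀ x, x ≠ a → f x = x := by intro x hx; rw [hf]; exact if_neg hx
  have hmono : Mono r f := by
    intro x y h
    by_cases hx : x = a
    · subst hx
      by_cases hy : y = x
      · subst hy
        exact hr.refl _
      · rw [hfa, hfx y hy]
        have hyb : y ≠ b := by rintro rfl; exact hab h
        rcases hcomp (σ b) y (by rw [hσσ]; exact hyb) with h1 | h1
        · exact hr1 _ _ h1 hb'a
        · by_cases hyb' : y = σ b
          · rw [hyb']; exact hr.refl _
          · exfalso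
            rcases hcomp b y hyb' with h2 | h2
            · exact (hσ b).1 (hr'.trans _ _ _ h2 h1)
            · exact hab (hr.trans _ _ _ h (hr1 _ _ h2 hy))
    · by_cases hy : y = a
      · subst hy
        rw [hfa, hfx x hx]
        exact hr.trans _ _ _ h hab'
      · rw [hfx x hx, hfx y hy]
        exact h
  have hle : ∀ x, r x (f x) := by
    intro x
    by_cases hx : x = a
    · subst hx; rw [hfa]; exact hab'
    · rw [hfx x hx]; exact hr.refl _
  refine fpp_of_conn hr (c := σ a) ((Conn.le (mono_id r) hmono hle).trans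
    (conn_const_of_comparable hr hmono ?_))
  intro x
  have hfxa : f x ≠ a := by
    by_cases hx : x = a
    · subst hx; rw [hfa]; exact hb'a
    · rw [hfx x hx]; exact hx
  rcases hcomp (σ a) (f x) (by rw [hσσ]; exact hfxa) with h | h
  · exact Or.inl (hr1 _ _ h ha'a)
  · exact Or.inr (hr1 _ _ h hfxa)

/-- between two orders one pair can be added -/
theorem exists_step [Finite α] {r s : α → α → Prop} (hr : PO r) (hs : PO s)
    (h : ∀ x y, r x y → s x y) (hne : r ≠ s) :
    ∃ a b, ¬ r a b ∧ PO (add r a b) ∧ ∀ x y, add r a b x y → s x y := by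
  have hex : ∃ p : α × α, s p.1 p.2 ∧ ¬ r p.1 p.2 := by
    by_contra hno
    push Not at hno
    exact hne (funext fun x => funext fun y => propext ⟨h x y, hno (x, y)⟩)
  obtain ⟨⟨a, b⟩, ⟨hsab, hrab⟩, hmax⟩ := Set.exists_max_image {p : α × α | s p.1 p.2 ∧ ¬ r p.1 p.2}
    (fun p => {z | s p.1 z ∧ s z p.2}.ncard) (Set.toFinite _) hex
  simp only at hsab hrab
  have hne' : a ≠ b := by rintro rfl; exact hrab (hr.refl _)
  have c1 : ∀ x, r x a → r x b ∨ x = a := by
    intro x hx
    by_contra hno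
    push Not at hno
    have h1 := hmax (x, b) ⟨hs.trans _ _ _ (h _ _ hx) hsab, hno.1⟩
    simp only at h1
    have h2 : {z | s a z ∧ s z b} ⊂ {z | s x z ∧ s z b} := by
      refine ⟨fun z hz => ⟨hs.trans _ _ _ (h _ _ hx) hz.1, hz.2⟩, fun hsub => ?_⟩
      have h3 : x ∈ {z | s x z ∧ s z b} := ⟨hs.refl _, hs.trans _ _ _ (h _ _ hx) hsab⟩
      exact hno.2 (hs.antisymm _ _ (h _ _ hx) (hsub h3).1)
    exact absurd (Set.ncard_lt_ncard h2) (by omega)
  have c2 : ∀ y, r b y → r a y ∨ y = b := by
    intro y hy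
    by_contra hno
    push Not at hno
    have h1 := hmax (a, y) ⟨hs.trans _ _ _ hsab (h _ _ hy), hno.1⟩
    simp only at h1
    have h2 : {z | s a z ∧ s z b} ⊂ {z | s a z ∧ s z y} := by
      refine ⟨fun z hz => ⟨hz.1, hs.trans _ _ _ hz.2 (h _ _ hy)⟩, fun hsub => ?_⟩
      have h3 : y ∈ {z | s a z ∧ s z y} := ⟨hs.trans _ _ _ hsab (h _ _ hy), hs.refl _⟩
      exact hno.2 (hs.antisymm _ _ (hsub h3).2 (h _ _ hy))
    exact absurd (Set.ncard_lt_ncard h2) (by omega)
  have hle : ∀ x y, add r a b x y → s x y := by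
    rintro x y (h1 | ⟨rfl, rfl⟩)
    · exact h _ _ h1
    · exact hsab
  refine ⟨a, b, hrab, ⟨fun x => Or.inl (hr.refl x), fun x y h1 h2 => hs.antisymm _ _ (hle _ _ h1)
    (hle _ _ h2), ?_⟩, hle⟩
  rintro x y z (h1 | ⟨rfl, rfl⟩) (h2 | ⟨h2, h3⟩)
  · exact Or.inl (hr.trans _ _ _ h1 h2)
  · subst h2 h3
    rcases c1 x h1 with h4 | h4
    · exact Or.inl h4
    · exact Or.inr ⟨h4, rfl⟩
  · rcases c2 z h2 with h4 | h4
    · exact Or.inl h4
    · exact Or.inr ⟨rfl, h4⟩
  · exact absurd h2.symm hne'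

end Q10.Fpp
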