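import Pool.Agent.Q10.Fpp.Bounds

/-! # Maximal chains of order relations -/

set_option autoImplicit false

namespace Q10.Fpp

/-- the order relations on `α`, ordered by inclusion -/
abbrev Ord (α : Type) := {r : α → α → Prop // PO r}

variable {α : Type}

/-- members with the fixed point property -/
def good (𝒞 : Set (Ord α)) : Set (Ord α) := {r | r ∈ 𝒞 ∧ FPP r.1}

/-- adjacencies where the fixed point property is gained -/
def gain (𝒞 : Set (Ord α)) : Set (Ord α × Ord α) :=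
  {p | p.1 ∈ 𝒞 ∧ p.2 ∈ 𝒞 ∧ p.1 < p.2 ∧ (∀ q ∈ 𝒞, ¬ (p.1 < q ∧ q < p.2)) ∧ ¬ FPP p.1.1 ∧ FPP p.2.1}

theorem sz_lt [Finite α] {p q : Ord α} (h : p < q) : sz p.1 < sz q.1 := by
  by_contra hno
  have := eq_of_sz (r := p.1) (s := q.1) h.le (by omega)
  exact h.ne (Subtype.ext this)

section
variable [Finite α] {𝒞 : Set (Ord α)} (h𝒞 : IsMaxChain (· ≤ ·) 𝒞)
include h𝒞

theorem chain_mem {m : Ord α} (hm : ∀ q ∈ 𝒞, m ≤ q ∨ q ≤ m) : m ∈ 𝒞 := by
  have h1 : IsChain (· ≤ ·) (insert m 𝒞) := h𝒞.1.insert fun b hb _ => hm b hb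
  have h2 := h𝒞.2 h1 (Set.subset_insert m 𝒞)
  rw [h2]
  exact Set.mem_insert m 𝒞

theorem chain_total {p q : Ord α} (hp : p ∈ 𝒞) (hq : q ∈ 𝒞) : p ≤ q ∨ q ≤ p := h𝒞.1.total hp hq

theorem chain_inj {p q : Ord α} (hp : p ∈ 𝒞) (hq : q ∈ 𝒞) (h : sz p.1 = sz q.1) : p = q := by
  rcases chain_total h𝒞 hp hq with h1 | h1
  · exact Subtype.ext (eq_of_sz h1 h.ge)
  · exact (Subtype.ext (eq_of_sz h1 h.le)).symm

theorem chain_lt {p q : Ord α} (hp : p ∈ 𝒞) (hq : q ∈ 𝒞) (h : sz p.1 < sz q.1) : p < q := by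
  rcases chain_total h𝒞 hp hq with h1 | h1
  · exact lt_of_le_of_ne h1 (fun h2 => by rw [h2] at h; omega)
  · exact absurd (sz_le (r := q.1) (s := p.1) h1) (by omega)

theorem chain_adj {p q : Ord α} (hp : p ∈ 𝒞) (hlt : p < q)
    (hq : q ∈ 𝒞) (hadj : ∀ s ∈ 𝒞, ¬ (p < s ∧ s < q)) : Step p.1 q.1 := by
  obtain ⟨a, b, hab, hpo, hle⟩ := exists_step p.2 q.2 hlt.le (fun h => hlt.ne (Subtype.ext h))
  obtain ⟨m, hm⟩ : ∃ m : Ord α, m = ⟨add p.1 a b, hpo⟩ := ⟨_, rfl⟩
  have hpm : p ≤ m := by rw [hm]; exact fun x y h => Or.inl h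
  have hmq : m ≤ q := by rw [hm]; exact hle
  have hpm' : p ≠ m := by
    intro h
    apply hab
    have : m.1 a b := by rw [hm]; exact Or.inr ⟨rfl, rfl⟩
    rwa [← h] at this
  have hmem : m ∈ 𝒞 := by
    refine chain_mem h𝒞 fun s hs => ?_
    rcases chain_total h𝒞 hs hp with h1 | h1
    · exact Or.inr (h1.trans hpm)
    · rcases eq_or_lt_of_le h1 with h2 | h2
      · subst h2; exact Or.inr hpm
      · rcases chain_total h𝒞 hs hq with h3 | h3
        · rcases eq_or_lt_of_le h3 with h4 | h4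
          · subst h4; exact Or.inl hmq
          · exact absurd ⟨h2, h4⟩ (hadj s hs)
        · exact Or.inl (hmq.trans h3)
  rcases eq_or_lt_of_le hmq with h1 | h1
  · exact ⟨a, b, hab, by rw [← h1, hm]⟩
  · exact absurd ⟨lt_of_le_of_ne hpm hpm', h1⟩ (hadj m hmem)

theorem chain_next {p : Ord α} (hp : p ∈ 𝒞) (hnt : ∃ x y, ¬ p.1 x y ∧ ¬ p.1 y x) :
    ∃ q ∈ 𝒞, p < q ∧ ∀ s ∈ 𝒞, ¬ (p < s ∧ s < q) := by
  haveI : IsPartialOrder α p.1 :=
    { refl := p.2.refl, trans := p.2.trans, antisymm := p.2.antisymm }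
  obtain ⟨s, hs, hps⟩ := extend_partialOrder p.1
  have hspo : PO s := ⟨hs.refl, hs.antisymm, hs.trans⟩
  obtain ⟨L, hL⟩ : ∃ L : Ord α, L = ⟨s, hspo⟩ := ⟨_, rfl⟩
  have hpL : p ≤ L := by rw [hL]; exact hps
  have hpL' : p ≠ L := by
    obtain ⟨x, y, h1, h2⟩ := hnt
    intro h
    rcases hs.total x y with h3 | h3
    · apply h1
      rw [h, hL]
      exact h3
    · apply h2
      rw [h, hL]
      exact h3
  have hex : ∃ q ∈ 𝒞, p < q := by
    by_contra hno
    push Not at hno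
    have hall : ∀ q ∈ 𝒞, q ≤ p := by
      intro q hq
      rcases chain_total h𝒞 hq hp with h1 | h1
      · exact h1
      · rcases eq_or_lt_of_le h1 with h2 | h2
        · exact h2.ge
        · exact absurd h2 (hno q hq)
    have hLmem : L ∈ 𝒞 := chain_mem h𝒞 fun q hq => Or.inr ((hall q hq).trans hpL)
    exact hno L hLmem (lt_of_le_of_ne hpL hpL')
  obtain ⟨q, ⟨hq, hpq⟩, hmin⟩ := Set.exists_min_image {q : Ord α | q ∈ 𝒞 ∧ p < q}
    (fun q => sz q.1) (Set.toFinite _) hex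
  exact ⟨q, hq, hpq, fun s hs h => absurd (hmin s ⟨hs, h.1⟩) (not_le.2 (sz_lt h.2))⟩

theorem chain_exists : ∀ i, Nat.card α ≤ i → 2 * i ≤ Nat.card α ^ 2 + Nat.card α →
    ∃ p ∈ 𝒞, sz p.1 = i := by
  intro i hi
  induction i, hi using Nat.le_induction with
  | base =>
    intro _
    refine ⟨⟨Eq, ⟨fun _ => rfl, fun _ _ h _ => h, fun _ _ _ h1 h2 => h1.trans h2⟩⟩,
      chain_mem h𝒞 fun q _ => Or.inl ?_, sz_eq⟩
    rintro x y rfl
    exact q.2.refl x
  | succ i hi ih =>
    intro h2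
    obtain ⟨p, hp, hsz⟩ := ih (by omega)
    have h3 := two_sz p.2
    have h4 : ic p.1 ≠ 0 := by omega
    have h5 : ∃ x y, ¬ p.1 x y ∧ ¬ p.1 y x := by
      obtain ⟨⟨x, y⟩, h⟩ := Set.nonempty_of_ncard_ne_zero h4
      exact ⟨x, y, h⟩
    obtain ⟨q, hq, hpq, hadj⟩ := chain_next h𝒞 hp h5
    obtain ⟨a, b, hab, he⟩ := chain_adj h𝒞 hp hpq hq hadj
    exact ⟨q, hq, by rw [he, sz_add hab, hsz]⟩

theorem good_of_sz {p : Ord α} (hp : p ∈ 𝒞) (h : Nat.card α ^ 2 < 2 * sz p.1) : p ∈ good 𝒞 := by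
  refine ⟨hp, ?_⟩
  by_contra hF
  have h1 := card_le_ic p.2 hF
  have h2 := two_sz p.2
  omega

theorem le_ncard_good (T : Finset ℕ) (hT : ∀ i ∈ T, ∃ p ∈ good 𝒞, sz p.1 = i) :
    T.card ≤ (good 𝒞).ncard := by
  have h1 : (T : Set ℕ) ⊆ (fun p : Ord α => sz p.1) '' good 𝒞 := by
    intro i hi
    obtain ⟨p, hp, h⟩ := hT i hi
    exact ⟨p, hp, h⟩
  have h2 := Set.ncard_le_ncard h1 (Set.toFinite _)
  have h3 := Set.ncard_image_le (f := fun p : Ord α => sz p.1) (s := good 𝒞)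
  rw [Set.ncard_coe_finset] at h2
  omega

/-- lower bound for the number of members with the fixed point property -/
theorem lower_good (h0 : Nat.card α ≠ 0) (h2 : Nat.card α ≠ 2) :
    Nat.card α / 2 + 1 ≤ (good 𝒞).ncard := by
  obtain ⟨n, hn⟩ : ∃ n, Nat.card α = n := ⟨_, rfl⟩
  rw [hn] at h0 h2 ⊢
  rcases Nat.even_or_odd' n with ⟨h, rfl | rfl⟩
  · -- even
    have hsq : (2 * h) ^ 2 = 4 * (h * h) := by ring
    have hh : 2 * h ≤ h * h := Nat.mul_le_mul_right h (by omega)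
    have hT0 : ∀ i ∈ Finset.Icc (2 * (h * h) + 1) (2 * (h * h) + h), ∃ p ∈ good 𝒞, sz p.1 = i := by
      intro i hi
      rw [Finset.mem_Icc] at hi
      obtain ⟨p, hp, hsz⟩ := chain_exists h𝒞 i (by omega) (by rw [hn, hsq]; omega)
      exact ⟨p, good_of_sz h𝒞 hp (by rw [hn, hsq]; omega), hsz⟩
    obtain ⟨p, hp, hpsz⟩ := chain_exists h𝒞 (2 * (h * h)) (by omega) (by rw [hn, hsq]; omega)
    obtain ⟨q, hq, hqsz⟩ := chain_exists h𝒞 (2 * (h * h) - 1) (by omega) (by rw [hn, hsq]; omega)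
    by_cases hF : FPP p.1
    · have := le_ncard_good h𝒞 (insert (2 * (h * h)) (Finset.Icc (2 * (h * h) + 1)
        (2 * (h * h) + h))) (by
          intro i hi
          rcases Finset.mem_insert.1 hi with rfl | hi
          · exact ⟨p, ⟨hp, hF⟩, hpsz⟩
          · exact hT0 i hi)
      rw [Finset.card_insert_of_notMem (by simp), Nat.card_Icc] at this
      omega
    · have hqp : q < p := chain_lt h𝒞 hq hp (by omega)
      obtain ⟨a, b, hab, he⟩ := chain_adj h𝒞 hq hqp hp (by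
        rintro s hs ⟨h1, h2⟩
        have h1 := sz_lt h1
        have h2 := sz_lt h2
        omega)
      have h5 := two_sz p.2
      have hppo := p.2
      rw [hn, hpsz, hsq] at h5
      have hic : ic p.1 ≤ Nat.card α := by rw [hn]; omega
      rw [he] at hF hic hppo
      have hF' : FPP q.1 := fpp_pred q.2 hppo hab hF hic
      have := le_ncard_good h𝒞 (insert (2 * (h * h) - 1) (Finset.Icc (2 * (h * h) + 1)
        (2 * (h * h) + h))) (by
          intro i hi
          rcases Finset.mem_insert.1 hi with rfl | hi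
          · exact ⟨q, ⟨hq, hF'⟩, hqsz⟩
          · exact hT0 i hi)
      rw [Finset.card_insert_of_notMem (by simp), Nat.card_Icc] at this
      omega
  · -- odd
    have hsq : (2 * h + 1) ^ 2 = 4 * (h * h) + 4 * h + 1 := by ring
    have := le_ncard_good h𝒞 (Finset.Icc (2 * (h * h) + 2 * h + 1) (2 * (h * h) + 3 * h + 1)) (by
      intro i hi
      rw [Finset.mem_Icc] at hi
      obtain ⟨p, hp, hsz⟩ := chain_exists h𝒞 i (by omega) (by rw [hn, hsq]; omega)
      exact ⟨p, good_of_sz h𝒞 hp (by rw [hn, hsq]; omega), hsz⟩)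
    rw [Nat.card_Icc] at this
    omega

theorem lower_good_two (h2 : Nat.card α = 2) : 1 ≤ (good 𝒞).ncard := by
  have := le_ncard_good h𝒞 {3} (by
    intro i hi
    rw [Finset.mem_singleton] at hi
    subst hi
    obtain ⟨p, hp, hsz⟩ := chain_exists h𝒞 3 (by omega) (by rw [h2]; norm_num)
    exact ⟨p, good_of_sz h𝒞 hp (by rw [h2, hsz]; norm_num), hsz⟩)
  simpa using this

/-- upper bound for the number of adjacencies gaining the fixed point property -/
theorem upper_gain (h2 : 2 ≤ Nat.card α) :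
    (gain 𝒞).ncard ≤ 1 + (Nat.card α - 2) ^ 2 / 4 := by
  haveI : Nonempty α := (Nat.card_pos_iff.1 (by omega)).1
  obtain ⟨m, hm⟩ : ∃ m, Nat.card α = m + 2 := ⟨Nat.card α - 2, by omega⟩
  rw [hm, Nat.add_sub_cancel]
  have hsq : (m + 2) ^ 2 = m ^ 2 + 4 * m + 4 := by ring
  have hstep : ∀ p ∈ gain 𝒞, sz p.2.1 = sz p.1.1 + 1 := by
    intro p hp
    obtain ⟨a, b, hab, he⟩ := chain_adj h𝒞 hp.1 hp.2.2.1 hp.2.1 hp.2.2.2.1
    rw [he, sz_add hab]
  have hlo : ∀ p ∈ gain 𝒞, 2 * (m + 2) ≤ sz p.1.1 + 2 := by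
    intro p hp
    have h3 := sz_ge p.2.2 hp.2.2.2.2.2
    have := hstep p hp
    omega
  have hhi : ∀ p ∈ gain 𝒞, 2 * sz p.1.1 ≤ m ^ 2 + 4 * m + 4 := by
    intro p hp
    have h3 := card_le_ic p.1.2 hp.2.2.2.2.1
    have h4 := two_sz p.1.2
    rw [hm, hsq] at h4
    omega
  have key := Set.ncard_le_ncard_of_injOn (s := gain 𝒞)
    (t := (Finset.range (1 + m ^ 2 / 4) : Set ℕ)) (fun p => (sz p.1.1 - 2 * (m + 1)) / 2) (by
      intro p hp
      have h3 := hlo p hp
      have h4 := hhi p hp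
      simp only [Finset.coe_range, Set.mem_Iio]
      omega) (by
      intro p hp q hq hpq
      have h3 := hlo p hp
      have h4 := hlo q hq
      simp only at hpq
      have h5 : sz p.1.1 = sz q.1.1 ∨ sz q.1.1 = sz p.1.1 + 1 ∨ sz p.1.1 = sz q.1.1 + 1 := by omega
      rcases h5 with h5 | h5 | h5
      · have e1 := chain_inj h𝒞 hp.1 hq.1 h5
        have e2 := chain_inj h𝒞 hp.2.1 hq.2.1 (by rw [hstep p hp, hstep q hq, h5])
        exact Prod.ext e1 e2
      · have e1 := chain_inj h𝒞 hp.2.1 hq.1 (by rw [hstep p hp, h5])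
        exact absurd (e1 ▸ hp.2.2.2.2.2) hq.2.2.2.2.1
      · have e1 := chain_inj h𝒞 hq.2.1 hp.1 (by rw [hstep q hq, h5])
        exact absurd (e1 ▸ hq.2.2.2.2.2) hp.2.2.2.2.1)
  rw [Set.ncard_coe_finset, Finset.card_range] at key
  exact key

end

/-! ## From paths to maximal chains -/

theorem Path.seq {r t : α → α → Prop} {n k c : ℕ} (p : Path r t n k c) :
    ∃ f : ℕ → α → α → Prop, f 0 = r ∧ f n = t ∧ (∀ i ≤ n, PO (f i)) ∧
      (∀ i < n, Step (f i) (f (i + 1))) ∧ (∑ i ∈ Finset.range n, sw (f i) (f (i + 1)) = k) ∧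
      (∑ i ∈ Finset.range n, ind (f (i + 1)) = c) := by
  induction p with
  | @nil r hr => exact ⟨fun _ => r, rfl, rfl, fun i _ => hr, fun i hi => by omega, by simp, by simp⟩
  | @cons r s t n k c hr h p ih =>
    obtain ⟨f, h0, hn, h1, h2, h3, h4⟩ := ih
    refine ⟨fun i => Nat.rec r (fun j _ => f j) i, rfl, hn, ?_, ?_, ?_, ?_⟩
    · intro i hi
      cases i with
      | zero => exact hr
      | succ i => exact h1 i (by omega)
    · intro i hi
      cases i with
      | zero => simpa [h0] using h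
      | succ i => exact h2 i (by omega)
    · rw [Finset.sum_range_succ', ← h3, ← h0]
      rfl
    · rw [Finset.sum_range_succ', ← h4, ← h0]

theorem chain_of_path [Finite α] {t : α → α → Prop} {n k c : ℕ}
    (p : Path (Eq : α → α → Prop) t n k c) (ht : ∀ x y, t x y ∨ t y x) :
    ∃ 𝒞 : Set (Ord α), IsMaxChain (· ≤ ·) 𝒞 ∧
      (good 𝒞).ncard ≤ ind (Eq : α → α → Prop) + c ∧ k ≤ (gain 𝒞).ncard := by
  classical
  obtain ⟨f, h0, hn, h1, h2, h3, h4⟩ := p.seq
  have hsz : ∀ i ≤ n, sz (f i) = Nat.card α + i := by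
    intro i
    induction i with
    | zero => intro _; rw [h0, sz_eq, Nat.add_zero]
    | succ i ih =>
      intro hi
      obtain ⟨a, b, hab, he⟩ := h2 i (by omega)
      rw [he, sz_add hab, ih (by omega)]
      omega
  have hle : ∀ i j, i ≤ j → j ≤ n → ∀ x y, f i x y → f j x y := by
    intro i j hij
    induction j, hij using Nat.le_induction with
    | base => intro _ x y h; exact h
    | succ j hj ih =>
      intro hjn x y h
      obtain ⟨a, b, hab, he⟩ := h2 j (by omega)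
      rw [he]
      exact Or.inl (ih (by omega) x y h)
  obtain ⟨𝒞, h𝒞⟩ : ∃ 𝒞 : Set (Ord α), 𝒞 = {q | ∃ i ≤ n, q.1 = f i} := ⟨_, rfl⟩
  have hchain : IsChain (· ≤ ·) 𝒞 := by
    rw [h𝒞]
    rintro p ⟨i, hi, hpi⟩ q ⟨j, hj, hqj⟩ _
    rcases le_total i j with h | h
    · left
      change p.1 ≤ q.1
      rw [hpi, hqj]
      exact hle i j h hj
    · right
      change q.1 ≤ p.1
      rw [hpi, hqj]
      exact hle j i h hi
  have hmax : IsMaxChain (· ≤ ·) 𝒞 := by
    refine ⟨hchain, fun 𝒟 h𝒟 hsub => Set.Subset.antisymm hsub ?_⟩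
    intro q hq
    rw [h𝒞]
    have hcmp : ∀ i ≤ n, (∀ x y, f i x y → q.1 x y) ∨ (∀ x y, q.1 x y → f i x y) := by
      intro i hi
      have hmem : (⟨f i, h1 i hi⟩ : Ord α) ∈ 𝒟 := hsub (by rw [h𝒞]; exact ⟨i, hi, rfl⟩)
      exact h𝒟.total hmem hq
    -- the largest index below `q`
    have hP0 : ∃ i, i ≤ n ∧ (∀ x y, f i x y → q.1 x y) := ⟨0, by omega, by
      rw [h0]; rintro x y rfl; exact q.2.refl x⟩
    obtain ⟨i, hi⟩ : ∃ i, i = Nat.findGreatest (fun i => ∀ x y, f i x y → q.1 x y) n := ⟨_, rfl⟩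
    have hin : i ≤ n := by rw [hi]; exact Nat.findGreatest_le n
    have hiq : ∀ x y, f i x y → q.1 x y := by
      rw [hi]
      exact Nat.findGreatest_spec (P := fun i => ∀ x y, f i x y → q.1 x y) (Nat.zero_le n) (by
        rw [h0]; rintro x y rfl; exact q.2.refl x)
    rcases Nat.lt_or_ge i n with hlt | hge
    · have hni : ¬ ∀ x y, f (i + 1) x y → q.1 x y :=
        Nat.findGreatest_is_greatest (P := fun i => ∀ x y, f i x y → q.1 x y) (n := n)
          (by rw [← hi]; omega) (by omega)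
      have hqi : ∀ x y, q.1 x y → f (i + 1) x y := (hcmp (i + 1) (by omega)).resolve_left hni
      obtain ⟨a, b, hab, he⟩ := h2 i hlt
      refine ⟨i, hin, (funext fun x => funext fun y => propext ⟨fun h => ?_, hiq x y⟩)⟩
      have h5 := hqi x y h
      rw [he] at h5
      rcases h5 with h5 | ⟨rfl, rfl⟩
      · exact h5
      · exfalso
        apply hni
        intro x' y' h6
        rw [he] at h6
        rcases h6 with h6 | ⟨rfl, rfl⟩
        · exact hiq _ _ h6
        · exact h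
    · obtain rfl : i = n := le_antisymm hin hge
      refine ⟨i, hin, (funext fun x => funext fun y => propext ⟨fun h => ?_, hiq x y⟩)⟩
      rw [hn] at hiq ⊢
      rcases ht x y with h5 | h5
      · exact h5
      · have h6 := q.2.antisymm x y h (hiq _ _ h5)
        rw [h6] at h5 ⊢
        exact h5
  refine ⟨𝒞, hmax, ?_, ?_⟩
  · -- good
    obtain ⟨S, hS⟩ : ∃ S : Finset ℕ, S = (Finset.range (n + 1)).filter (fun i => FPP (f i)) :=
      ⟨_, rfl⟩
    have hcard : S.card = ind (Eq : α → α → Prop) + c := by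
      have e1 : S.card = ∑ i ∈ Finset.range (n + 1), ind (f i) := by
        rw [hS, Finset.card_filter]
        refine Finset.sum_congr rfl fun i _ => ?_
        unfold ind
        by_cases hF : FPP (f i)
        · simp [hF]
        · simp [hF]
      rw [e1, Finset.sum_range_succ', h4, h0]
      omega
    rw [← hcard, ← Set.ncard_coe_finset]
    refine Set.ncard_le_ncard_of_injOn (fun p : Ord α => sz p.1 - Nat.card α) ?_ ?_
    · rintro p ⟨hp, hF⟩
      rw [h𝒞] at hp
      obtain ⟨i, hi, hpi⟩ := hp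
      simp only [hS, Finset.coe_filter, Finset.mem_range, Set.mem_setOf_eq, hpi, hsz i hi]
      rw [Nat.add_sub_cancel_left]
      rw [hpi] at hF
      exact ⟨by omega, hF⟩
    · rintro p ⟨hp, hF⟩ q ⟨hq, hF'⟩ hpq
      rw [h𝒞] at hp hq
      obtain ⟨i, hi, hpi⟩ := hp
      obtain ⟨j, hj, hqj⟩ := hq
      simp only [hpi, hqj, hsz i hi, hsz j hj, Nat.add_sub_cancel_left] at hpq
      subst hpq
      exact Subtype.ext (hpi.trans hqj.symm)
  · -- gain
    obtain ⟨S, hS⟩ : ∃ S : Finset ℕ, S = (Finset.range n).filter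
        (fun i => ¬ FPP (f i) ∧ FPP (f (i + 1))) := ⟨_, rfl⟩
    have hcard : S.card = k := by
      rw [← h3, hS, Finset.card_filter]
      refine Finset.sum_congr rfl fun i _ => ?_
      unfold sw
      by_cases hF : ¬ FPP (f i) ∧ FPP (f (i + 1))
      · rw [if_pos hF]
      · rw [if_neg hF]
    rw [← hcard, ← Set.ncard_coe_finset]
    obtain ⟨g, hg⟩ : ∃ g : ℕ → Ord α, ∀ i ≤ n, (g i).1 = f i := by
      refine ⟨fun i => if hi : i ≤ n then ⟨f i, h1 i hi⟩ else ⟨f 0, h1 0 (by omega)⟩, ?_⟩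
      intro i hi
      simp only [dif_pos hi]
    refine Set.ncard_le_ncard_of_injOn (fun i => (g i, g (i + 1))) ?_ ?_
    · intro i hi
      rw [hS] at hi
      simp only [Finset.coe_filter, Finset.mem_range, Set.mem_setOf_eq] at hi
      obtain ⟨hi, hF, hF'⟩ := hi
      have e1 := hg i (by omega)
      have e2 := hg (i + 1) (by omega)
      have hlt : g i < g (i + 1) := by
        refine lt_of_le_of_ne ?_ ?_
        · change (g i).1 ≤ (g (i + 1)).1
          rw [e1, e2]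
          exact hle i (i + 1) (by omega) (by omega)
        · intro h
          have h6 := hsz i (by omega)
          have h7 := hsz (i + 1) (by omega)
          rw [← e1, h, e2, h7] at h6
          omega
      refine ⟨by rw [h𝒞]; exact ⟨i, by omega, e1⟩, by rw [h𝒞]; exact ⟨i + 1, by omega, e2⟩, hlt, ?_,
        by rw [e1]; exact hF, by rw [e2]; exact hF'⟩
      rintro q _ ⟨h6, h7⟩
      have h6 := sz_lt h6
      have h7 := sz_lt h7
      simp only at h6 h7
      rw [e1, hsz i (by omega)] at h6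
      rw [e2, hsz (i + 1) (by omega)] at h7
      omega
    · intro i hi j hj hij
      rw [hS] at hi hj
      simp only [Finset.coe_filter, Finset.mem_range, Set.mem_setOf_eq] at hi hj
      have h6 : g i = g j := (Prod.ext_iff.1 hij).1
      have h7 := hsz i (by omega)
      have h8 := hsz j (by omega)
      rw [← hg i (by omega), h6, hg j (by omega), h8] at h7
      omega

end Q10.Fpp
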