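import Pool.Agent.Q10.Fpp.Paths

/-! # Fences -/

set_option autoImplicit false
set_option linter.unusedSimpArgs false

namespace Q10.Fpp

/-- the first `k` edges of the fence on `m` points; points with even index are minimal -/
def F (m k : ℕ) : Fin m → Fin m → Prop := fun i j =>
  i.val = j.val ∨ (i.val % 2 = 0 ∧ ((j.val = i.val + 1 ∧ i.val < k) ∨ (i.val = j.val + 1 ∧ j.val < k)))

theorem F_po (m k : ℕ) : PO (F m k) := by
  refine ⟨fun x => Or.inl rfl, ?_, ?_⟩
  · intro x y h1 h2
    apply Fin.ext
    unfold F at h1 h2
    omega
  · intro x y z h1 h2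
    unfold F at h1 h2 ⊢
    omega

theorem F_step {m k : ℕ} (h : k + 1 < m) : Step (F m k) (F m (k + 1)) := by
  rcases Nat.mod_two_eq_zero_or_one k with hk | hk
  · refine ⟨⟨k, by omega⟩, ⟨k + 1, h⟩, ?_, ?_⟩
    · unfold F; simp only; omega
    · funext x y
      apply propext
      unfold add F
      simp only [Fin.ext_iff]
      omega
  · refine ⟨⟨k + 1, h⟩, ⟨k, by omega⟩, ?_, ?_⟩
    · unfold F; simp only; omega
    · funext x y
      apply propext
      unfold add F
      simp only [Fin.ext_iff]
      omega

theorem F_not_fpp {m k : ℕ} (h : k + 1 < m) : ¬ FPP (F m k) := by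
  refine not_fpp_of_split (F_po m k) (fun i => i.val ≤ k) ?_ (a := ⟨0, by omega⟩)
    (b := ⟨k + 1, h⟩) (by simp) (by simp)
  intro x y hxy
  unfold F at hxy
  omega

theorem F_zero (m : ℕ) : F m 0 = Eq := by
  funext x y
  apply propext
  unfold F
  simp [Fin.ext_iff]

theorem F_fpp (m : ℕ) : FPP (F (m + 1) m) := by
  have hmono : ∀ i (hi : i < m + 1), Mono (F (m + 1) m) (fun x => max x ⟨i, hi⟩) := by
    intro i hi x y h
    unfold F at h ⊢
    simp only [Fin.coe_max]
    omega
  have key : ∀ i (hi : i < m + 1), Conn (F (m + 1) m) id (fun x => max x ⟨i, hi⟩) := by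
    intro i
    induction i with
    | zero =>
      intro hi
      refine Conn.le (mono_id _) (hmono 0 hi) ?_
      intro x
      left
      simp
    | succ i ih =>
      intro hi
      refine (ih (by omega)).trans ?_
      rcases Nat.mod_two_eq_zero_or_one i with hk | hk
      · refine Conn.le (hmono _ _) (hmono _ _) ?_
        intro x
        unfold F
        simp only [Fin.coe_max]
        omega
      · refine Conn.ge (hmono _ _) (hmono _ _) ?_
        intro x
        unfold F
        simp only [Fin.coe_max]
        omega
  refine fpp_of_conn (F_po _ _) (c := ⟨m, by omega⟩) ?_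
  have h := key m (by omega)
  have e : (fun x : Fin (m + 1) => max x ⟨m, by omega⟩) = fun _ => ⟨m, by omega⟩ := by
    funext x
    apply Fin.ext
    simp only [Fin.coe_max]
    omega
  rwa [e] at h

theorem path_F {m k : ℕ} (h : k + 1 < m) : ∃ n, Path (Eq : Fin m → Fin m → Prop) (F m k) n 0 0 := by
  induction k with
  | zero => exact ⟨0, by rw [F_zero]; exact .nil (by rw [← F_zero]; exact F_po m 0)⟩
  | succ k ih =>
    obtain ⟨n, p⟩ := ih (by omega)
    have q := Path.single (F_po m k) (F_po m (k + 1)) (F_step (by omega))
    rw [sw_eq_zero (F_not_fpp h), ind_eq_zero (F_not_fpp h)] at q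
    exact ⟨_, p.append q⟩

theorem path_F_full (m : ℕ) : ∃ n c, Path (Eq : Fin (m + 2) → Fin (m + 2) → Prop) (F (m + 2) (m + 1)) n 1 c := by
  obtain ⟨n, p⟩ := path_F (m := m + 2) (k := m) (by omega)
  have q := Path.single (F_po (m + 2) m) (F_po (m + 2) (m + 1)) (F_step (by omega))
  rw [sw_eq_one (F_not_fpp (by omega)) (F_fpp (m + 1))] at q
  exact ⟨_, _, (p.append q).cast rfl (by omega) rfl⟩

/-! ## The two stages -/

section
variable {m r : ℕ}

/-- the down-sets of the first element -/
def U (m r a : ℕ) : Fin m → Prop := fun k => k.val ≤ 2 * a ∨ 2 * r < k.val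
/-- the down-sets of the first element, with one more element -/
def U' (m r a : ℕ) : Fin m → Prop := fun k => k.val ≤ 2 * a ∨ 2 * r < k.val ∨ k.val = 2 * a + 2
/-- the down-sets of the second element -/
def V (m r b : ℕ) : Fin m → Prop := fun k => 2 * b ≤ k.val ∧ k.val ≤ 2 * r
/-- the down-sets of the second element, with one more element -/
def V' (m r b : ℕ) : Fin m → Prop := fun k => (2 * b ≤ k.val ∧ k.val ≤ 2 * r) ∨ k.val + 2 = 2 * b

theorem ext_po' {U V : Fin m → Prop} (hU : ∀ x y, F m (2 * r) x y → U y → U x)
    (hV : ∀ x y, F m (2 * r) x y → V y → V x) : PO (ext (F m (2 * r)) U V) :=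
  ext_po (F_po _ _) hU hV

theorem U_down (a : ℕ) : ∀ x y, F m (2 * r) x y → U m r a y → U m r a x := by
  intro x y h hy
  unfold F at h
  unfold U at hy ⊢
  omega

theorem U'_down {a : ℕ} : ∀ x y, F m (2 * r) x y → U' m r a y → U' m r a x := by
  intro x y h hy
  unfold F at h
  unfold U' at hy ⊢
  omega

theorem V_down (b : ℕ) : ∀ x y, F m (2 * r) x y → V m r b y → V m r b x := by
  intro x y h hy
  unfold F at h
  unfold V at hy ⊢
  omega

theorem V'_down (b : ℕ) : ∀ x y, F m (2 * r) x y → V' m r b y → V' m r b x := by
  intro x y h hy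
  unfold F at h
  unfold V' at hy ⊢
  omega

/-- stage 1: the deformations -/
def push1 (m r i : ℕ) (hi : i < m) : Fin m ⊕ Bool → Fin m ⊕ Bool
  | .inl k => if k.val ≤ 2 * r then .inl ⟨min k.val i, by omega⟩ else .inr true
  | .inr true => .inr true
  | .inr false => .inl ⟨i, hi⟩

theorem push1_mono {i a : ℕ} (hi : i < m) (h1 : 2 * a ≤ i) (h2 : i ≤ 2 * r) :
    Mono (ext (F m (2 * r)) (U m r a) (V m r r)) (push1 m r i hi) := by
  rintro (x | b) (y | c) h
  · simp only [ext, push1, F] at h ⊢
    split_ifs with h3 h4 h4
    · simp only [ext, F, true_or, or_true, true_and, and_true] <;> omega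
    · omega
    · omega
    · simp only [ext]
  · cases c
    · simp only [ext, push1, V] at h ⊢
      rw [if_pos h.2]
      simp only [ext, F]
      omega
    · simp only [ext, push1, U] at h ⊢
      split_ifs with h3
      · simp only [ext, U, true_or, or_true, true_and, and_true] <;> omega
      · simp only [ext]
  · exact h.elim
  · obtain rfl : b = c := h
    cases b
    · simp only [ext, push1, F, true_or, or_true, true_and, and_true] <;> omega
    · simp only [ext, push1]

theorem push1_conn {i a : ℕ} (hi : i + 1 < m) (h1 : 2 * a ≤ i) (h2 : i + 1 ≤ 2 * r) :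
    Conn (ext (F m (2 * r)) (U m r a) (V m r r)) (push1 m r (i + 1) hi)
      (push1 m r i (by omega)) := by
  rcases Nat.mod_two_eq_zero_or_one i with hk | hk
  · refine Conn.ge (push1_mono _ (by omega) h2) (push1_mono _ h1 (by omega)) ?_
    rintro (x | b)
    · simp only [push1]
      split_ifs with h3
      · simp only [ext, F, true_or, or_true, true_and, and_true] <;> omega
      · simp only [ext]
    · cases b
      · simp only [ext, push1, F, true_or, or_true, true_and, and_true] <;> omega
      · simp only [ext, push1]
  · refine Conn.le (push1_mono _ (by omega) h2) (push1_mono _ h1 (by omega)) ?_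
    rintro (x | b)
    · simp only [push1]
      split_ifs with h3
      · simp only [ext, F, true_or, or_true, true_and, and_true] <;> omega
      · simp only [ext]
    · cases b
      · simp only [ext, push1, F, true_or, or_true, true_and, and_true] <;> omega
      · simp only [ext, push1]

theorem push1_conn' {a : ℕ} (hr : 2 * r < m) (ha : a ≤ r) (d : ℕ) (hd : d ≤ 2 * r - 2 * a) :
    Conn (ext (F m (2 * r)) (U m r a) (V m r r)) (push1 m r (2 * r) hr)
      (push1 m r (2 * r - d) (by omega)) := by
  induction d with
  | zero => exact Relation.EqvGen.refl _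
  | succ d ih =>
    refine (ih (by omega)).trans ?_
    have := push1_conn (m := m) (r := r) (i := 2 * r - (d + 1)) (a := a) (by omega) (by omega) (by omega)
    have e : 2 * r - (d + 1) + 1 = 2 * r - d := by omega
    have h3 : ∀ j (hj : j < m), 2 * r - (d + 1) + 1 = j → push1 m r (2 * r - (d + 1) + 1) (by omega) =
        push1 m r j hj := by
      intro j hj h; subst h; rfl
    rw [h3 (2 * r - d) (by omega) e] at this
    exact this

theorem stage1_fpp {a : ℕ} (hr : 2 * r < m) (ha : a ≤ r) :
    FPP (ext (F m (2 * r)) (U m r a) (V m r r)) := by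
  have hpo : PO (ext (F m (2 * r)) (U m r a) (V m r r)) := ext_po' (U_down a) (V_down r)
  obtain ⟨g, hg⟩ : ∃ g : Fin m ⊕ Bool → Fin m ⊕ Bool, g = fun z => match z with
      | .inl k => if k.val ≤ 2 * r then .inl k else .inr true
      | .inr b => .inr b := ⟨_, rfl⟩
  have hgm : Mono (ext (F m (2 * r)) (U m r a) (V m r r)) g := by
    rintro (x | b) (y | c) h
    · simp only [ext, hg, F] at h ⊢
      split_ifs with h3 h4 h4
      · simp only [ext, F]
        exact h
      · omega
      · omega
      · simp only [ext]
    · cases c
      · simp only [ext, hg, V] at h ⊢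
        rw [if_pos h.2]
        simp only [ext, V]
        omega
      · simp only [ext, hg, U] at h ⊢
        split_ifs with h3
        · simp only [ext, U, true_or, or_true, true_and, and_true] <;> omega
        · simp only [ext]
    · exact h.elim
    · obtain rfl : b = c := h
      simp only [hg]
      exact hpo.refl _
  have c1 : Conn (ext (F m (2 * r)) (U m r a) (V m r r)) id g := by
    refine Conn.le (mono_id _) hgm ?_
    rintro (x | b)
    · simp only [id, hg]
      split_ifs with h3
      · exact hpo.refl _
      · simp only [ext, U, true_or, or_true, true_and, and_true] <;> omega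
    · simp only [id, hg]
      exact hpo.refl _
  have c2 : Conn (ext (F m (2 * r)) (U m r a) (V m r r)) g (push1 m r (2 * r) hr) := by
    refine Conn.ge hgm (push1_mono hr (by omega) le_rfl) ?_
    rintro (x | b)
    · simp only [hg, push1]
      split_ifs with h3
      · simp only [ext, F, true_or, or_true, true_and, and_true] <;> omega
      · simp only [ext]
    · cases b
      · simp only [hg, push1, ext, V, true_or, or_true, true_and, and_true] <;> omega
      · simp only [hg, push1, ext]
  have c3 := push1_conn' (m := m) (r := r) hr ha (2 * r - 2 * a) le_rfl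
  refine fpp_of_conn hpo (c := .inr true) (c1.trans (c2.trans (c3.trans ?_)))
  refine Conn.le (push1_mono _ (by omega) (by omega)) (mono_const hpo _) ?_
  rintro (x | b)
  · simp only [push1]
    split_ifs with h3
    · simp only [ext, U, true_or, or_true, true_and, and_true] <;> omega
    · simp only [ext]
  · cases b
    · simp only [push1, ext, U, true_or, or_true, true_and, and_true] <;> omega
    · simp only [push1, ext]

theorem stage1_not_fpp {a : ℕ} (hr : 2 * r < m) (ha : a < r) :
    ¬ FPP (ext (F m (2 * r)) (U' m r a) (V m r r)) := by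
  intro hF
  obtain ⟨g, hg⟩ : ∃ g : Fin m ⊕ Bool → Fin m ⊕ Bool, g = fun z => match z with
      | .inl k => if k.val ≤ 2 * a then .inl ⟨2 * a + 2, by omega⟩ else
          if k.val = 2 * a + 1 then .inr true else
          if k.val ≤ 2 * r then .inl ⟨2 * a, by omega⟩ else .inl ⟨2 * a + 2, by omega⟩
      | .inr true => .inl ⟨2 * a + 1, by omega⟩
      | .inr false => .inl ⟨2 * a, by omega⟩ := ⟨_, rfl⟩
  obtain ⟨z, hz⟩ := hF g (by
    rintro (x | b) (y | c) h
    · simp only [ext, hg, F] at h ⊢
      split_ifs <;> simp only [ext, F, U', true_or, or_true, true_and, and_true] <;> omega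
    · cases c
      · simp only [ext, hg, V] at h ⊢
        split_ifs <;> simp only [ext, F, U', true_or, or_true, true_and, and_true] <;> omega
      · simp only [ext, hg, U'] at h ⊢
        split_ifs <;> simp only [ext, F, U', true_or, or_true, true_and, and_true] <;> omega
    · exact h.elim
    · obtain rfl : b = c := h
      cases b <;> simp only [ext, hg, F, true_or, or_true, true_and, and_true])
  rcases z with x | b
  · simp only [hg] at hz
    split_ifs at hz <;> simp only [Sum.inl.injEq, Fin.ext_iff] at hz <;> omega
  · cases b <;> simp [hg] at hz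

/-- stage 2: the deformations -/
def push2 (m r i : ℕ) (hi : i < m) : Fin m ⊕ Bool → Fin m ⊕ Bool
  | .inl k => if h : k.val ≤ 2 * r then .inl ⟨max k.val i, by omega⟩ else .inr true
  | .inr b => .inr b

theorem push2_mono {i b : ℕ} (hi : i < m) (h2 : i ≤ 2 * r) :
    Mono (ext (F m (2 * r)) (fun _ => True) (V m r b)) (push2 m r i hi) := by
  rintro (x | b) (y | c) h
  · simp only [ext, push2, F] at h ⊢
    split_ifs with h3 h4 h4
    · simp only [ext, F, true_or, or_true, true_and, and_true] <;> omega
    · omega
    · omega
    · simp only [ext]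
  · cases c
    · simp only [ext, push2, V] at h ⊢
      rw [dif_pos h.2]
      simp only [ext, V]
      omega
    · simp only [ext, push2] at h ⊢
      split_ifs with h3
      · simp only [ext]
      · simp only [ext]
  · exact h.elim
  · obtain rfl : b = c := h
    simp only [push2, ext]

theorem push2_conn {i b : ℕ} (hi : i + 1 < m) (h2 : i + 1 ≤ 2 * r) :
    Conn (ext (F m (2 * r)) (fun _ => True) (V m r b)) (push2 m r i (by omega))
      (push2 m r (i + 1) hi) := by
  rcases Nat.mod_two_eq_zero_or_one i with hk | hk
  · refine Conn.le (push2_mono _ (by omega)) (push2_mono _ (by omega)) ?_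
    rintro (x | b)
    · simp only [push2]
      split_ifs with h3
      · simp only [ext, F, true_or, or_true, true_and, and_true] <;> omega
      · simp only [ext]
    · simp only [push2, ext]
  · refine Conn.ge (push2_mono _ (by omega)) (push2_mono _ (by omega)) ?_
    rintro (x | b)
    · simp only [push2]
      split_ifs with h3
      · simp only [ext, F, true_or, or_true, true_and, and_true] <;> omega
      · simp only [ext]
    · simp only [push2, ext]

theorem stage2_fpp {b : ℕ} (hr : 2 * r < m) (hb : b ≤ r) :
    FPP (ext (F m (2 * r)) (fun _ => True) (V m r b)) := by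
  have hpo : PO (ext (F m (2 * r)) (fun _ => True) (V m r b)) :=
    ext_po' (fun _ _ _ _ => trivial) (V_down b)
  have c1 : Conn (ext (F m (2 * r)) (fun _ => True) (V m r b)) id (push2 m r 0 (by omega)) := by
    refine Conn.le (mono_id _) (push2_mono _ (by omega)) ?_
    rintro (x | b)
    · simp only [id, push2]
      split_ifs with h3
      · simp only [ext, F, true_or, or_true, true_and, and_true] <;> omega
      · simp only [ext]
    · simp only [id, push2, ext]
  have c2 : ∀ i (hi : i < m), i ≤ 2 * r → Conn (ext (F m (2 * r)) (fun _ => True) (V m r b))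
      (push2 m r 0 (by omega)) (push2 m r i hi) := by
    intro i
    induction i with
    | zero => intro _ _; exact Relation.EqvGen.refl _
    | succ i ih =>
      intro hi h2
      exact (ih (by omega) (by omega)).trans (push2_conn hi h2)
  refine fpp_of_conn hpo (c := .inl ⟨2 * r, hr⟩) (c1.trans ((c2 (2 * r) hr le_rfl).trans
    (conn_const_of_comparable hpo (push2_mono hr le_rfl) ?_)))
  rintro (x | b)
  · left
    simp only [push2]
    split_ifs with h3
    · simp only [ext, F, true_or, or_true, true_and, and_true] <;> omega
    · simp only [ext]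
  · left
    cases b
    · simp only [push2, ext, V, true_or, or_true, true_and, and_true] <;> omega
    · simp only [push2, ext]

theorem stage2_not_fpp {b : ℕ} (hr : 2 * r < m) (hb : b + 1 ≤ r) :
    ¬ FPP (ext (F m (2 * r)) (fun _ => True) (V' m r (b + 1))) := by
  intro hF
  obtain ⟨g, hg⟩ : ∃ g : Fin m ⊕ Bool → Fin m ⊕ Bool, g = fun z => match z with
      | .inl k => if k.val ≤ 2 * b then .inl ⟨2 * b + 2, by omega⟩ else
          if k.val = 2 * b + 1 then .inr false else
          if k.val ≤ 2 * r then .inl ⟨2 * b, by omega⟩ else .inl ⟨2 * b + 2, by omega⟩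
      | .inr true => .inr false
      | .inr false => .inl ⟨2 * b + 1, by omega⟩ := ⟨_, rfl⟩
  obtain ⟨z, hz⟩ := hF g (by
    rintro (x | b) (y | c) h
    · simp only [ext, hg, F] at h ⊢
      split_ifs <;> simp only [ext, F, V', true_or, or_true, true_and, and_true] <;> omega
    · cases c
      · simp only [ext, hg, V'] at h ⊢
        split_ifs <;> simp only [ext, F, V', true_or, or_true, true_and, and_true] <;> omega
      · simp only [ext, hg] at h ⊢
        split_ifs <;> simp only [ext, F, V', true_or, or_true, true_and, and_true] <;> omega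
    · exact h.elim
    · obtain rfl : b = c := h
      cases b <;> simp only [ext, hg, F, true_or, or_true, true_and, and_true])
  rcases z with x | b
  · simp only [hg] at hz
    split_ifs at hz <;> simp only [Sum.inl.injEq, Fin.ext_iff] at hz <;> omega
  · cases b <;> simp [hg] at hz

end

end Q10.Fpp
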