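import Pool.Agent.Q10.Fpp.Basic

/-! # Paths of order relations, adding one pair at a time -/

set_option autoImplicit false

namespace Q10.Fpp

variable {α β : Type}

open Classical in
/-- `1` if the fixed point property is gained -/
noncomputable def sw (r s : α → α → Prop) : ℕ := if ¬ FPP r ∧ FPP s then 1 else 0

open Classical in
/-- `1` if the fixed point property holds -/
noncomputable def ind (s : α → α → Prop) : ℕ := if FPP s then 1 else 0

theorem sw_eq_one {r s : α → α → Prop} (h1 : ¬ FPP r) (h2 : FPP s) : sw r s = 1 := if_pos ⟨h1, h2⟩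
theorem sw_eq_zero {r s : α → α → Prop} (h2 : ¬ FPP s) : sw r s = 0 := if_neg fun h => h2 h.2
theorem ind_eq_zero {s : α → α → Prop} (h2 : ¬ FPP s) : ind s = 0 := if_neg h2
theorem ind_le_one (s : α → α → Prop) : ind s ≤ 1 := by
  unfold ind; split_ifs <;> omega

/-- `Path r t n k c`: a path from `r` to `t` with `n` steps, the fixed point property is gained at
`k` steps, and holds for `c` members other than the first. -/
inductive Path {α : Type} : (α → α → Prop) → (α → α → Prop) → ℕ → ℕ → ℕ → Prop
  | nil {r : α → α → Prop} (hr : PO r) : Path r r 0 0 0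
  | cons {r s t : α → α → Prop} {n k c : ℕ} (hr : PO r) (h : Step r s) (p : Path s t n k c) :
      Path r t (n + 1) (k + sw r s) (c + ind s)

theorem Path.po_left {r t : α → α → Prop} {n k c : ℕ} (p : Path r t n k c) : PO r := by
  cases p with
  | nil hr => exact hr
  | cons hr _ _ => exact hr

theorem Path.po_right {r t : α → α → Prop} {n k c : ℕ} (p : Path r t n k c) : PO t := by
  induction p with
  | nil hr => exact hr
  | cons _ _ _ ih => exact ih

theorem Path.append {r s t : α → α → Prop} {n k c n' k' c' : ℕ} (p : Path r s n k c)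
    (q : Path s t n' k' c') : Path r t (n + n') (k + k') (c + c') := by
  induction p with
  | nil hr => simpa using q
  | cons hr h p ih =>
    have := Path.cons hr h (ih q)
    convert this using 1 <;> omega

theorem Path.single {r s : α → α → Prop} (hr : PO r) (hs : PO s) (h : Step r s) :
    Path r s 1 (sw r s) (ind s) := by
  simpa using Path.cons hr h (Path.nil hs)

theorem Path.cast {r s : α → α → Prop} {n k c n' k' c' : ℕ} (p : Path r s n k c) (hn : n = n')
    (hk : k = k') (hc : c = c') : Path r s n' k' c' := by
  subst hn hk hc; exact p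

theorem Path.count_le {r t : α → α → Prop} {n k c : ℕ} (p : Path r t n k c) : c ≤ n := by
  induction p with
  | nil _ => exact le_rfl
  | @cons r s t n k c _ _ _ ih => have := ind_le_one s; omega

theorem Path.map {r t : α → α → Prop} {n k c : ℕ} (p : Path r t n k c)
    (φ : (α → α → Prop) → (β → β → Prop)) (h1 : ∀ r, PO r → PO (φ r))
    (h2 : ∀ r s, PO r → PO s → Step r s → Step (φ r) (φ s))
    (h3 : ∀ r, PO r → (FPP (φ r) ↔ FPP r)) : Path (φ r) (φ t) n k c := by
  induction p with
  | nil hr => exact .nil (h1 _ hr)
  | @cons r s t n k c hr h p ih =>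
    have e1 : sw (φ r) (φ s) = sw r s := by
      have ha := propext (h3 r hr)
      have hb := propext (h3 s p.po_left)
      unfold sw
      rw [ha, hb]
    have e2 : ind (φ s) = ind s := by
      have hb := propext (h3 s p.po_left)
      unfold ind
      rw [hb]
    have := Path.cons (h1 _ hr) (h2 _ _ hr p.po_left h) ih
    rwa [e1, e2] at this

/-- the poset `r` with two further elements above the down-sets `U` and `V` -/
def ext (r : α → α → Prop) (U V : α → Prop) : α ⊕ Bool → α ⊕ Bool → Prop
  | .inl x, .inl y => r x y
  | .inl x, .inr true => U x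
  | .inl x, .inr false => V x
  | .inr _, .inl _ => False
  | .inr a, .inr b => a = b

/-- the ordinal sum of `r` with a two element antichain -/
def os (r : α → α → Prop) : α ⊕ Bool → α ⊕ Bool → Prop := ext r (fun _ => True) (fun _ => True)

theorem ext_po {r : α → α → Prop} (hr : PO r) {U V : α → Prop} (hU : ∀ x y, r x y → U y → U x)
    (hV : ∀ x y, r x y → V y → V x) : PO (ext r U V) := by
  refine ⟨?_, ?_, ?_⟩
  · rintro (x | b)
    · exact hr.refl x
    · exact rfl
  · rintro (x | a) (y | b) h1 h2
    · exact congrArg _ (hr.antisymm _ _ h1 h2)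
    · exact h2.elim
    · exact h1.elim
    · exact congrArg _ h1
  · rintro (x | a) (y | b) (z | c) h1 h2
    · exact hr.trans _ _ _ h1 h2
    · cases c
      · exact hV _ _ h1 h2
      · exact hU _ _ h1 h2
    · exact h2.elim
    · obtain rfl : b = c := h2
      exact h1
    · exact h1.elim
    · exact h1.elim
    · exact h2.elim
    · exact Eq.trans (show a = b from h1) h2

theorem os_po {r : α → α → Prop} (hr : PO r) : PO (os r) :=
  ext_po hr (fun _ _ _ _ => trivial) (fun _ _ _ _ => trivial)

theorem step_ext_U {r : α → α → Prop} {U U' V : α → Prop} {x : α} (hx : ¬ U x)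
    (h : ∀ y, U' y ↔ (U y ∨ y = x)) : Step (ext r U V) (ext r U' V) := by
  refine ⟨.inl x, .inr true, hx, ?_⟩
  funext a b
  rcases a with a | a <;> rcases b with b | b
  · simp [ext, add]
  · cases b <;> simp [ext, add, h]
  · simp [ext, add]
  · simp [ext, add]

theorem step_ext_V {r : α → α → Prop} {U V V' : α → Prop} {x : α} (hx : ¬ V x)
    (h : ∀ y, V' y ↔ (V y ∨ y = x)) : Step (ext r U V) (ext r U V') := by
  refine ⟨.inl x, .inr false, hx, ?_⟩
  funext a b
  rcases a with a | a <;> rcases b with b | b
  · simp [ext, add]
  · cases b <;> simp [ext, add, h]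
  · simp [ext, add]
  · simp [ext, add]

theorem step_ext_base {r s : α → α → Prop} {U V : α → Prop} (h : Step r s) :
    Step (ext r U V) (ext s U V) := by
  obtain ⟨a, b, h1, rfl⟩ := h
  refine ⟨.inl a, .inl b, h1, ?_⟩
  funext x y
  rcases x with x | x <;> rcases y with y | y
  · simp [ext, add]
  · cases y <;> simp [ext, add]
  · simp [ext, add]
  · simp [ext, add]

theorem fpp_os_iff {r : α → α → Prop} (hr : PO r) : FPP (os r) ↔ FPP r := by
  constructor
  · intro h g hg
    by_contra hne
    push Not at hne
    obtain ⟨x, hx⟩ := h (fun z => match z with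
      | .inl x => .inl (g x)
      | .inr b => .inr (!b)) (by
        rintro (x | a) (y | b) hxy
        · exact hg _ _ hxy
        · cases b <;> trivial
        · exact hxy.elim
        · obtain rfl : a = b := hxy
          rfl)
    rcases x with x | b
    · exact hne x (Sum.inl.inj hx)
    · have := Sum.inr.inj hx
      cases b <;> simp at this
  · intro h f hf
    by_cases hc : ∃ x b, f (.inl x) = .inr b
    · obtain ⟨x, b, hx⟩ := hc
      refine ⟨.inr b, ?_⟩
      have h1 : os r (f (.inl x)) (f (.inr b)) := hf _ _ (by cases b <;> trivial)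
      rw [hx] at h1
      rcases h2 : f (.inr b) with y | b'
      · rw [h2] at h1
        exact h1.elim
      · rw [h2] at h1
        have : b = b' := h1
        rw [this]
    · push Not at hc
      have hg : ∀ x, ∃ y, f (.inl x) = .inl y := by
        intro x
        rcases h2 : f (.inl x) with y | b
        · exact ⟨y, rfl⟩
        · exact absurd h2 (hc x b)
      choose g hg using hg
      obtain ⟨x, hx⟩ := h g (by
        intro x y hxy
        have := hf (.inl x) (.inl y) hxy
        rw [hg, hg] at this
        exact this)
      exact ⟨.inl x, by rw [hg, hx]⟩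

theorem Path.os {r t : α → α → Prop} {n k c : ℕ} (p : Path r t n k c) :
    Path (os r) (os t) n k c :=
  p.map _ (fun _ => os_po) (fun _ _ _ _ h => step_ext_base h) (fun _ => fpp_os_iff)

/-- transport along a bijection -/
def tr (e : α ≃ β) (r : α → α → Prop) : β → β → Prop := fun x y => r (e.symm x) (e.symm y)

theorem fpp_tr (e : α ≃ β) (r : α → α → Prop) : FPP (tr e r) ↔ FPP r := by
  constructor
  · intro h f hf
    obtain ⟨x, hx⟩ := h (fun x => e (f (e.symm x))) (by
      intro x y hxy
      simp only [tr, Equiv.symm_apply_apply]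
      exact hf _ _ hxy)
    exact ⟨e.symm x, by simpa using congrArg e.symm hx⟩
  · intro h f hf
    obtain ⟨x, hx⟩ := h (fun x => e.symm (f (e x))) (by
      intro x y hxy
      have := hf (e x) (e y) (by simpa [tr] using hxy)
      simpa [tr] using this)
    exact ⟨e x, by simpa using congrArg e hx⟩

theorem Path.tr {r t : α → α → Prop} {n k c : ℕ} (p : Path r t n k c) (e : α ≃ β) :
    Path (tr e r) (tr e t) n k c := by
  refine p.map _ ?_ ?_ (fun r _ => fpp_tr e r)
  · intro r hr
    refine ⟨fun _ => hr.refl _, fun x y h1 h2 => ?_, fun _ _ _ h1 h2 => hr.trans _ _ _ h1 h2⟩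
    exact e.symm.injective (hr.antisymm _ _ h1 h2)
  · rintro r s _ _ ⟨a, b, h1, rfl⟩
    refine ⟨e a, e b, by simpa [Fpp.tr] using h1, ?_⟩
    funext x y
    simp only [Fpp.tr, add]
    rw [Equiv.symm_apply_eq, Equiv.symm_apply_eq]

theorem fpp_swap (r : α → α → Prop) : FPP (Function.swap r) ↔ FPP r :=
  ⟨fun h f hf => h f fun _ _ hxy => hf _ _ hxy, fun h f hf => h f fun _ _ hxy => hf _ _ hxy⟩

theorem Path.swap {r t : α → α → Prop} {n k c : ℕ} (p : Path r t n k c) :
    Path (Function.swap r) (Function.swap t) n k c := by
  refine p.map _ (fun _ h => h.flip) ?_ (fun r _ => fpp_swap r)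
  rintro r s _ _ ⟨a, b, h1, rfl⟩
  refine ⟨b, a, h1, ?_⟩
  funext x y
  simp only [Function.swap, add]
  rw [and_comm]

/-- there is a path from `r` to a linear order gaining the fixed point property `k` times -/
def Good (r : α → α → Prop) (k : ℕ) : Prop :=
  ∃ t n c, Path r t n k c ∧ ∀ x y, t x y ∨ t y x

theorem Good.tr {r : α → α → Prop} {k : ℕ} (h : Good r k) (e : α ≃ β) : Good (tr e r) k := by
  obtain ⟨t, n, c, p, ht⟩ := h
  exact ⟨_, n, c, p.tr e, fun x y => ht _ _⟩

theorem Good.swap {r : α → α → Prop} {k : ℕ} (h : Good r k) : Good (Function.swap r) k := by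
  obtain ⟨t, n, c, p, ht⟩ := h
  exact ⟨_, n, c, p.swap, fun x y => ht _ _⟩

theorem Good.prepend {r s : α → α → Prop} {n k c k' : ℕ} (p : Path r s n k c) (h : Good s k') :
    Good r (k + k') := by
  obtain ⟨t, n', c', q, ht⟩ := h
  exact ⟨t, _, _, p.append q, ht⟩

/-- the last step: the two top elements are made comparable -/
def top (r : α → α → Prop) : α ⊕ Bool → α ⊕ Bool → Prop := add (os r) (.inr false) (.inr true)

theorem top_po {r : α → α → Prop} (hr : PO r) : PO (top r) := by
  refine ⟨fun x => Or.inl ((os_po hr).refl x), ?_, ?_⟩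
  · rintro (x | a) (y | b) h1 h2
    · rcases h1 with h1 | h1
      · rcases h2 with h2 | h2
        · exact (os_po hr).antisymm _ _ h1 h2
        · exact (by simpa using h2.1)
      · exact (by simpa using h1.1)
    · rcases h2 with h2 | h2
      · exact h2.elim
      · exact (by simpa using h2.2)
    · rcases h1 with h1 | h1
      · exact h1.elim
      · exact (by simpa using h1.2)
    · cases a <;> cases b <;> simp [top, add, os, ext] at h1 h2 ⊢
  · rintro (x | a) (y | b) (z | c) h1 h2
    · rcases h1 with h1 | h1
      · rcases h2 with h2 | h2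
        · exact Or.inl ((os_po hr).trans _ _ _ h1 h2)
        · exact (by simpa using h2.1)
      · exact (by simpa using h1.1)
    · left; cases c <;> trivial
    · rcases h2 with h2 | h2
      · exact h2.elim
      · exact (by simpa using h2.2)
    · left; cases c <;> trivial
    · rcases h1 with h1 | h1
      · exact h1.elim
      · exact (by simpa using h1.2)
    · rcases h1 with h1 | h1
      · exact h1.elim
      · exact (by simpa using h1.2)
    · rcases h2 with h2 | h2
      · exact h2.elim
      · exact (by simpa using h2.2)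
    · cases a <;> cases b <;> cases c <;> simp [top, add, os, ext] at h1 h2 ⊢

theorem top_total {r : α → α → Prop} (ht : ∀ x y, r x y ∨ r y x) : ∀ x y, top r x y ∨ top r y x := by
  rintro (x | a) (y | b)
  · rcases ht x y with h | h
    · exact Or.inl (Or.inl h)
    · exact Or.inr (Or.inl h)
  · left; left; cases b <;> trivial
  · right; left; cases a <;> trivial
  · cases a <;> cases b <;> simp [top, add, os, ext]

theorem step_top {r : α → α → Prop} : Step (os r) (top r) := ⟨.inr false, .inr true, by simp [os, ext], rfl⟩

theorem Good.os [Finite α] [Nonempty α] {r : α → α → Prop} {k : ℕ} (h : Good r k) :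
    Good (os r) k := by
  obtain ⟨t, n, c, p, ht⟩ := h
  have hF : FPP (Fpp.os t) := (fpp_os_iff p.po_right).2 (fpp_of_total p.po_right ht)
  have h0 : sw (Fpp.os t) (top t) = 0 := if_neg fun h => h.1 hF
  have q := Path.single (os_po p.po_right) (top_po p.po_right) step_top
  rw [h0] at q
  exact ⟨_, _, _, p.os.append q, top_total ht⟩

end Q10.Fpp
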