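import Pool.Agent.Q10.Fpp.Paths

/-! # Chains with few members having the fixed point property -/

set_option autoImplicit false

namespace Q10.Fpp

variable {α β : Type}

/-- there is a path from the discrete order to a linear order with at most `d` members having the
fixed point property after the first -/
def Slow (α : Type) (d : ℕ) : Prop :=
  ∃ t n k c, Path (Eq : α → α → Prop) t n k c ∧ (∀ x y, t x y ∨ t y x) ∧ c ≤ d

theorem Slow.of_equiv {d : ℕ} (h : Slow α d) (e : α ≃ β) : Slow β d := by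
  obtain ⟨t, n, k, c, p, ht, hc⟩ := h
  have h1 : Fpp.tr e (Eq : α → α → Prop) = (Eq : β → β → Prop) := by
    funext x y
    apply propext
    unfold Fpp.tr
    exact e.symm.injective.eq_iff
  have q := p.tr e
  rw [h1] at q
  exact ⟨_, n, k, c, q, fun x y => ht _ _, hc⟩

theorem eq_po (α : Type) : PO (Eq : α → α → Prop) :=
  ⟨fun _ => rfl, fun _ _ h _ => h, fun _ _ _ h1 h2 => h1.trans h2⟩

theorem ext_eq_po (U V : α → Prop) : PO (ext (Eq : α → α → Prop) U V) :=
  ext_po (eq_po α) (fun _ _ h hy => h ▸ hy) (fun _ _ h hy => h ▸ hy)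

theorem ext_eq_empty : ext (Eq : α → α → Prop) (fun _ => False) (fun _ => False) = Eq := by
  funext x y
  apply propext
  rcases x with x | x <;> rcases y with y | y
  · simp [ext]
  · cases y <;> simp [ext]
  · simp [ext]
  · simp [ext]

theorem crown_not_fpp {x₁ x₂ : α} (h12 : x₁ ≠ x₂) {U V : α → Prop} (hU₁ : U x₁) (hU₂ : U x₂)
    (hV₁ : V x₁) (hV₂ : V x₂) : ¬ FPP (ext (Eq : α → α → Prop) U V) := by
  classical
  intro hF
  obtain ⟨z, hz⟩ := hF (fun z => match z with
    | .inl x => .inl (if x = x₁ then x₂ else x₁)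
    | .inr b => .inr (!b)) (by
      rintro (x | a) (y | b) h
      · obtain rfl : x = y := h
        rfl
      · cases b
        · simp only [Bool.not_false, ext]
          split_ifs <;> assumption
        · simp only [Bool.not_true, ext]
          split_ifs <;> assumption
      · exact h.elim
      · obtain rfl : a = b := h
        rfl)
  rcases z with x | b
  · have := Sum.inl.inj hz
    split_ifs at this with h
    · exact h12 (h.symm.trans this.symm)
    · exact h this.symm
  · have := Sum.inr.inj hz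
    cases b <;> simp at this

theorem iso_not_fpp {x₁ x₃ : α} (h13 : x₁ ≠ x₃) {U V : α → Prop} (hU₃ : ¬ U x₃) (hV₃ : ¬ V x₃) :
    ¬ FPP (ext (Eq : α → α → Prop) U V) := by
  refine not_fpp_of_split (ext_eq_po U V) (fun z => z = .inl x₃) ?_ (a := .inl x₃) (b := .inl x₁)
    rfl (by simpa using h13)
  rintro (x | a) (y | b) h
  · obtain rfl : x = y := h
    exact Iff.rfl
  · simp only [reduceCtorEq, iff_false, Sum.inl.injEq]
    rintro rfl
    cases b
    · exact hV₃ h
    · exact hU₃ h
  · exact h.elim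
  · simp

/-- steps through orders without the fixed point property -/
def Dull (r s : α → α → Prop) : Prop := ∃ n, Path r s n 0 0

theorem Dull.trans {r s t : α → α → Prop} (h1 : Dull r s) (h2 : Dull s t) : Dull r t := by
  obtain ⟨n, p⟩ := h1
  obtain ⟨n', p'⟩ := h2
  exact ⟨_, p.append p'⟩

theorem Dull.refl {r : α → α → Prop} (h1 : PO r) : Dull r r := ⟨0, .nil h1⟩

theorem Dull.single {r s : α → α → Prop} (hr : PO r) (hs : PO s) (h : Step r s) (hF : ¬ FPP s) :
    Dull r s := by
  have := Path.single hr hs h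
  rw [sw_eq_zero hF, ind_eq_zero hF] at this
  exact ⟨_, this⟩

theorem dull_U {x₁ x₂ : α} (h12 : x₁ ≠ x₂) {U V : α → Prop} (hU₁ : U x₁) (hU₂ : U x₂)
    (hV₁ : V x₁) (hV₂ : V x₂) (T : Finset α) :
    Dull (ext (Eq : α → α → Prop) U V) (ext (Eq : α → α → Prop) (fun x => U x ∨ x ∈ T) V) := by
  classical
  induction T using Finset.induction_on with
  | empty =>
    have : (fun x => U x ∨ x ∈ (∅ : Finset α)) = U := by funext x; simp
    rw [this]
    exact .refl (ext_eq_po _ _)
  | insert a T ha ih =>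
    refine ih.trans ?_
    by_cases hU : U a
    · have : (fun x => U x ∨ x ∈ insert a T) = (fun x => U x ∨ x ∈ T) := by
        funext x
        apply propext
        simp only [Finset.mem_insert]
        constructor
        · rintro (h | rfl | h)
          · exact Or.inl h
          · exact Or.inl hU
          · exact Or.inr h
        · rintro (h | h)
          · exact Or.inl h
          · exact Or.inr (Or.inr h)
      rw [this]
      exact .refl (ext_eq_po _ _)
    · refine .single (ext_eq_po _ _) (ext_eq_po _ _) (step_ext_U (x := a) ?_ ?_)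
        (crown_not_fpp h12 (Or.inl hU₁) (Or.inl hU₂) hV₁ hV₂)
      · simp [hU, ha]
      · intro y
        simp only [Finset.mem_insert]
        tauto

theorem dull_V {x₁ x₂ : α} (h12 : x₁ ≠ x₂) {U V : α → Prop} (hU₁ : U x₁) (hU₂ : U x₂)
    (hV₁ : V x₁) (hV₂ : V x₂) (T : Finset α) :
    Dull (ext (Eq : α → α → Prop) U V) (ext (Eq : α → α → Prop) U (fun x => V x ∨ x ∈ T)) := by
  classical
  induction T using Finset.induction_on with
  | empty =>
    have : (fun x => V x ∨ x ∈ (∅ : Finset α)) = V := by funext x; simp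
    rw [this]
    exact .refl (ext_eq_po _ _)
  | insert a T ha ih =>
    refine ih.trans ?_
    by_cases hV : V a
    · have : (fun x => V x ∨ x ∈ insert a T) = (fun x => V x ∨ x ∈ T) := by
        funext x
        apply propext
        simp only [Finset.mem_insert]
        constructor
        · rintro (h | rfl | h)
          · exact Or.inl h
          · exact Or.inl hV
          · exact Or.inr h
        · rintro (h | h)
          · exact Or.inl h
          · exact Or.inr (Or.inr h)
      rw [this]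
      exact .refl (ext_eq_po _ _)
    · refine .single (ext_eq_po _ _) (ext_eq_po _ _) (step_ext_V (x := a) ?_ ?_)
        (crown_not_fpp h12 hU₁ hU₂ (Or.inl hV₁) (Or.inl hV₂))
      · simp [hV, ha]
      · intro y
        simp only [Finset.mem_insert]
        tauto

theorem dull_os [Fintype α] {x₁ x₂ x₃ : α} (h12 : x₁ ≠ x₂) (h13 : x₁ ≠ x₃) (h23 : x₂ ≠ x₃) :
    Dull (Eq : α ⊕ Bool → α ⊕ Bool → Prop) (os (Eq : α → α → Prop)) := by
  rw [← ext_eq_empty]
  have d1 : Dull (ext (Eq : α → α → Prop) (fun _ => False) (fun _ => False))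
      (ext (Eq : α → α → Prop) (fun x => x = x₁) (fun _ => False)) :=
    .single (ext_eq_po _ _) (ext_eq_po _ _) (step_ext_U (x := x₁) (by simp) (by simp))
      (iso_not_fpp h13 (fun h => h13 h.symm) (by simp))
  have d2 : Dull (ext (Eq : α → α → Prop) (fun x => x = x₁) (fun _ => False))
      (ext (Eq : α → α → Prop) (fun x => x = x₁ ∨ x = x₂) (fun _ => False)) :=
    .single (ext_eq_po _ _) (ext_eq_po _ _) (step_ext_U (x := x₂) (fun h => h12 h.symm) (by simp))
      (iso_not_fpp h13 (by rintro (h | h); exacts [h13 h.symm, h23 h.symm]) (by simp))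
  have d3 : Dull (ext (Eq : α → α → Prop) (fun x => x = x₁ ∨ x = x₂) (fun _ => False))
      (ext (Eq : α → α → Prop) (fun x => x = x₁ ∨ x = x₂) (fun x => x = x₁)) :=
    .single (ext_eq_po _ _) (ext_eq_po _ _) (step_ext_V (x := x₁) (by simp) (by simp))
      (iso_not_fpp h13 (by rintro (h | h); exacts [h13 h.symm, h23 h.symm]) (fun h => h13 h.symm))
  have d4 : Dull (ext (Eq : α → α → Prop) (fun x => x = x₁ ∨ x = x₂) (fun x => x = x₁))
      (ext (Eq : α → α → Prop) (fun x => x = x₁ ∨ x = x₂) (fun x => x = x₁ ∨ x = x₂)) :=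
    .single (ext_eq_po _ _) (ext_eq_po _ _) (step_ext_V (x := x₂) (fun h => h12 h.symm) (by simp))
      (iso_not_fpp h13 (by rintro (h | h); exacts [h13 h.symm, h23 h.symm])
        (by rintro (h | h); exacts [h13 h.symm, h23 h.symm]))
  have d5 := dull_U h12 (U := fun x => x = x₁ ∨ x = x₂) (V := fun x => x = x₁ ∨ x = x₂)
    (Or.inl rfl) (Or.inr rfl) (Or.inl rfl) (Or.inr rfl) Finset.univ
  have d6 := dull_V h12 (U := fun x => (x = x₁ ∨ x = x₂) ∨ x ∈ (Finset.univ : Finset α))
    (V := fun x => x = x₁ ∨ x = x₂) (Or.inl (Or.inl rfl)) (Or.inl (Or.inr rfl)) (Or.inl rfl)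
    (Or.inr rfl) Finset.univ
  have e : (fun x => (x = x₁ ∨ x = x₂) ∨ x ∈ (Finset.univ : Finset α)) = fun _ => True := by
    funext x; simp
  rw [e] at d5 d6
  exact ((((d1.trans d2).trans d3).trans d4).trans d5).trans d6

theorem Slow.succ [Fintype α] {d : ℕ} (h : Slow α d) {x₁ x₂ x₃ : α} (h12 : x₁ ≠ x₂)
    (h13 : x₁ ≠ x₃) (h23 : x₂ ≠ x₃) : Slow (α ⊕ Bool) (d + 1) := by
  obtain ⟨t, n, k, c, p, ht, hc⟩ := h
  obtain ⟨n', p'⟩ := dull_os h12 h13 h23
  have q := (p'.append p.os).append (Path.single (os_po p.po_right) (top_po p.po_right) step_top)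
  refine ⟨_, _, _, _, q, top_total ht, ?_⟩
  have := ind_le_one (top t)
  omega

theorem slow_three : Slow (Fin 3) 2 := by
  obtain ⟨s1, hs1⟩ : ∃ s : Fin 3 → Fin 3 → Prop, s = add Eq 0 1 := ⟨_, rfl⟩
  obtain ⟨s2, hs2⟩ : ∃ s : Fin 3 → Fin 3 → Prop, s = add s1 0 2 := ⟨_, rfl⟩
  obtain ⟨s3, hs3⟩ : ∃ s : Fin 3 → Fin 3 → Prop, s = add s2 1 2 := ⟨_, rfl⟩
  have p1 : PO s1 := by subst hs1; unfold add; exact ⟨by decide, by decide, by decide⟩
  have p2 : PO s2 := by subst hs2 hs1; unfold add; exact ⟨by decide, by decide, by decide⟩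
  have p3 : PO s3 := by subst hs3 hs2 hs1; unfold add; exact ⟨by decide, by decide, by decide⟩
  have t1 : Step Eq s1 := ⟨0, 1, by decide, hs1⟩
  have t2 : Step s1 s2 := ⟨0, 2, by subst hs1; unfold add; decide, hs2⟩
  have t3 : Step s2 s3 := ⟨1, 2, by subst hs2 hs1; unfold add; decide, hs3⟩
  have n1 : ¬ FPP s1 := by
    refine not_fpp_of_split p1 (fun x => x = 2) ?_ (a := 2) (b := 0) rfl (by decide)
    subst hs1; unfold add; decide
  obtain ⟨n, d1⟩ := Dull.single (eq_po _) p1 t1 n1
  have q := (Path.single p1 p2 t2).append (Path.single p2 p3 t3)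
  refine ⟨_, _, _, _, d1.append q, ?_, ?_⟩
  · subst hs3 hs2 hs1; unfold add; decide
  · have h1 := ind_le_one s2
    have h2 := ind_le_one s3
    omega

theorem slow_four : Slow (Fin 4) 3 := by
  obtain ⟨s1, hs1⟩ : ∃ s : Fin 4 → Fin 4 → Prop, s = add Eq 0 1 := ⟨_, rfl⟩
  obtain ⟨s2, hs2⟩ : ∃ s : Fin 4 → Fin 4 → Prop, s = add s1 0 2 := ⟨_, rfl⟩
  obtain ⟨s3, hs3⟩ : ∃ s : Fin 4 → Fin 4 → Prop, s = add s2 1 2 := ⟨_, rfl⟩
  obtain ⟨s4, hs4⟩ : ∃ s : Fin 4 → Fin 4 → Prop, s = add s3 0 3 := ⟨_, rfl⟩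
  obtain ⟨s5, hs5⟩ : ∃ s : Fin 4 → Fin 4 → Prop, s = add s4 1 3 := ⟨_, rfl⟩
  obtain ⟨s6, hs6⟩ : ∃ s : Fin 4 → Fin 4 → Prop, s = add s5 2 3 := ⟨_, rfl⟩
  have p1 : PO s1 := by subst hs1; unfold add; exact ⟨by decide, by decide, by decide⟩
  have p2 : PO s2 := by subst hs2 hs1; unfold add; exact ⟨by decide, by decide, by decide⟩
  have p3 : PO s3 := by subst hs3 hs2 hs1; unfold add; exact ⟨by decide, by decide, by decide⟩
  have p4 : PO s4 := by subst hs4 hs3 hs2 hs1; unfold add; exact ⟨by decide, by decide, by decide⟩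
  have p5 : PO s5 := by
    subst hs5 hs4 hs3 hs2 hs1; unfold add; exact ⟨by decide, by decide, by decide⟩
  have p6 : PO s6 := by
    subst hs6 hs5 hs4 hs3 hs2 hs1; unfold add; exact ⟨by decide, by decide, by decide⟩
  have t1 : Step Eq s1 := ⟨0, 1, by decide, hs1⟩
  have t2 : Step s1 s2 := ⟨0, 2, by subst hs1; unfold add; decide, hs2⟩
  have t3 : Step s2 s3 := ⟨1, 2, by subst hs2 hs1; unfold add; decide, hs3⟩
  have t4 : Step s3 s4 := ⟨0, 3, by subst hs3 hs2 hs1; unfold add; decide, hs4⟩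
  have t5 : Step s4 s5 := ⟨1, 3, by subst hs4 hs3 hs2 hs1; unfold add; decide, hs5⟩
  have t6 : Step s5 s6 := ⟨2, 3, by subst hs5 hs4 hs3 hs2 hs1; unfold add; decide, hs6⟩
  have n1 : ¬ FPP s1 := by
    refine not_fpp_of_split p1 (fun x => x = 3) ?_ (a := 3) (b := 0) rfl (by decide)
    subst hs1; unfold add; decide
  have n2 : ¬ FPP s2 := by
    refine not_fpp_of_split p2 (fun x => x = 3) ?_ (a := 3) (b := 0) rfl (by decide)
    subst hs2 hs1; unfold add; decide
  have n3 : ¬ FPP s3 := by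
    refine not_fpp_of_split p3 (fun x => x = 3) ?_ (a := 3) (b := 0) rfl (by decide)
    subst hs3 hs2 hs1; unfold add; decide
  obtain ⟨n, d1⟩ := ((Dull.single (eq_po _) p1 t1 n1).trans (Dull.single p1 p2 t2 n2)).trans
    (Dull.single p2 p3 t3 n3)
  have q := ((Path.single p3 p4 t4).append (Path.single p4 p5 t5)).append (Path.single p5 p6 t6)
  refine ⟨_, _, _, _, d1.append q, ?_, ?_⟩
  · subst hs6 hs5 hs4 hs3 hs2 hs1; unfold add; decide
  · have h1 := ind_le_one s4
    have h2 := ind_le_one s5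
    have h3 := ind_le_one s6
    omega

theorem slow : ∀ n, 3 ≤ n → Slow (Fin n) (n / 2 + 1)
  | 0, h => by omega
  | 1, h => by omega
  | 2, h => by omega
  | 3, _ => slow_three
  | 4, _ => slow_four
  | n + 5, _ => by
    have ih := slow (n + 3) (by omega)
    have h := (ih.succ (x₁ := ⟨0, by omega⟩) (x₂ := ⟨1, by omega⟩) (x₃ := ⟨2, by omega⟩)
      (by simp) (by simp) (by simp)).of_equiv
      (Fintype.equivFinOfCardEq (by simp : Fintype.card (Fin (n + 3) ⊕ Bool) = n + 5))
    have e : (n + 3) / 2 + 1 + 1 = (n + 5) / 2 + 1 := by omega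
    rwa [e] at h

end Q10.Fpp
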