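import Pool.Agent.Q10.Fpp.Fence

/-! # The recursion for the number of switches -/

set_option autoImplicit false
set_option linter.unusedSimpArgs false

namespace Q10.Fpp

theorem Good.of_bij {α β : Type} {r : α → α → Prop} {r' : β → β → Prop} {k : ℕ} (h : Good r k)
    (g : α → β) (hg : Function.Bijective g) (hr : ∀ x y, r x y ↔ r' (g x) (g y)) : Good r' k := by
  have h' := h.tr (Equiv.ofBijective g hg)
  have e : Fpp.tr (Equiv.ofBijective g hg) r = r' := by
    funext x y
    apply propext
    unfold Fpp.tr
    rw [hr]
    have e1 : ∀ z, g ((Equiv.ofBijective g hg).symm z) = z := fun z =>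
      (Equiv.ofBijective g hg).apply_symm_apply z
    rw [e1, e1]
  rwa [e] at h'

variable {m r : ℕ}

theorem stage1_step {a : ℕ} (hr : 2 * r < m) (ha : a < r) :
    ∃ n c, Path (ext (F m (2 * r)) (U m r a) (V m r r)) (ext (F m (2 * r)) (U m r (a + 1)) (V m r r))
      n 1 c := by
  have h1 : Step (ext (F m (2 * r)) (U m r a) (V m r r)) (ext (F m (2 * r)) (U' m r a) (V m r r)) := by
    refine step_ext_U (x := ⟨2 * a + 2, by omega⟩) ?_ ?_
    · simp only [U]; omega
    · intro y
      simp only [U, U', Fin.ext_iff]
      omega
  have h2 : Step (ext (F m (2 * r)) (U' m r a) (V m r r))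
      (ext (F m (2 * r)) (U m r (a + 1)) (V m r r)) := by
    refine step_ext_U (x := ⟨2 * a + 1, by omega⟩) ?_ ?_
    · simp only [U']; omega
    · intro y
      simp only [U, U', Fin.ext_iff]
      omega
  have p1 := Path.single (ext_po' (U_down a) (V_down r)) (ext_po' U'_down (V_down r)) h1
  have p2 := Path.single (ext_po' U'_down (V_down r)) (ext_po' (U_down (a + 1)) (V_down r)) h2
  rw [sw_eq_zero (stage1_not_fpp hr ha)] at p1
  rw [sw_eq_one (stage1_not_fpp hr ha) (stage1_fpp hr ha)] at p2
  exact ⟨_, _, (p1.append p2).cast rfl (by omega) rfl⟩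

theorem stage1 (hr : 2 * r < m) (a : ℕ) (ha : a ≤ r) :
    ∃ n c, Path (ext (F m (2 * r)) (U m r 0) (V m r r)) (ext (F m (2 * r)) (U m r a) (V m r r))
      n a c := by
  induction a with
  | zero => exact ⟨0, 0, .nil (ext_po' (U_down 0) (V_down r))⟩
  | succ a ih =>
    obtain ⟨n, c, p⟩ := ih (by omega)
    obtain ⟨n', c', p'⟩ := stage1_step hr (a := a) (by omega)
    exact ⟨_, _, p.append p'⟩

theorem stage2_step {b : ℕ} (hr : 2 * r < m) (hb : b + 1 ≤ r) :
    ∃ n c, Path (ext (F m (2 * r)) (fun _ => True) (V m r (b + 1)))
      (ext (F m (2 * r)) (fun _ => True) (V m r b)) n 1 c := by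
  have h1 : Step (ext (F m (2 * r)) (fun _ => True) (V m r (b + 1)))
      (ext (F m (2 * r)) (fun _ => True) (V' m r (b + 1))) := by
    refine step_ext_V (x := ⟨2 * b, by omega⟩) ?_ ?_
    · simp only [V]; omega
    · intro y
      simp only [V, V', Fin.ext_iff]
      omega
  have h2 : Step (ext (F m (2 * r)) (fun _ => True) (V' m r (b + 1)))
      (ext (F m (2 * r)) (fun _ => True) (V m r b)) := by
    refine step_ext_V (x := ⟨2 * b + 1, by omega⟩) ?_ ?_
    · simp only [V']; omega
    · intro y
      simp only [V, V', Fin.ext_iff]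
      omega
  have p1 := Path.single (ext_po' (fun _ _ _ _ => trivial) (V_down (b + 1)))
    (ext_po' (fun _ _ _ _ => trivial) (V'_down (b + 1))) h1
  have p2 := Path.single (ext_po' (fun _ _ _ _ => trivial) (V'_down (b + 1)))
    (ext_po' (fun _ _ _ _ => trivial) (V_down b)) h2
  rw [sw_eq_zero (stage2_not_fpp hr hb)] at p1
  rw [sw_eq_one (stage2_not_fpp hr hb) (stage2_fpp hr (by omega))] at p2
  exact ⟨_, _, (p1.append p2).cast rfl (by omega) rfl⟩

theorem stage2 (hr : 2 * r < m) (d : ℕ) (hd : d ≤ r) :
    ∃ n c, Path (ext (F m (2 * r)) (fun _ => True) (V m r r))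
      (ext (F m (2 * r)) (fun _ => True) (V m r (r - d))) n d c := by
  induction d with
  | zero => exact ⟨0, 0, .nil (ext_po' (fun _ _ _ _ => trivial) (V_down r))⟩
  | succ d ih =>
    obtain ⟨n, c, p⟩ := ih (by omega)
    obtain ⟨n', c', p'⟩ := stage2_step hr (b := r - (d + 1)) (by omega)
    have e : r - (d + 1) + 1 = r - d := by omega
    rw [e] at p'
    exact ⟨_, _, p.append p'⟩

theorem stages (hr : 2 * r < m) (hm : m ≤ 2 * r + 2) :
    ∃ n c, Path (ext (F m (2 * r)) (U m r 0) (V m r r)) (ext (F m (2 * r)) (fun _ => True) (V m r 0))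
      n (2 * r) c := by
  obtain ⟨n, c, p⟩ := stage1 hr r le_rfl
  obtain ⟨n', c', p'⟩ := stage2 hr r le_rfl
  have e : (U m r r) = fun _ => True := by
    funext x
    apply propext
    simp only [U]
    constructor
    · intro _; trivial
    · intro _; omega
  rw [e] at p
  rw [Nat.sub_self] at p'
  exact ⟨_, _, (p.append p').cast rfl (by omega) rfl⟩

theorem good_odd {k : ℕ} (h : Good (F (2 * r + 1) (2 * r)) k) :
    Good (F (2 * r + 3) (2 * r + 2)) (2 * r + k) := by
  obtain ⟨n, c, p⟩ := stages (m := 2 * r + 1) (r := r) (by omega) (by omega)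
  have e : V (2 * r + 1) r 0 = fun _ => True := by
    funext x
    apply propext
    simp only [V]
    constructor
    · intro _; trivial
    · intro _; omega
  rw [e] at p
  have h1 := Good.prepend p h.os
  have h2 : Good (Function.swap (F (2 * r + 3) (2 * r + 2))) (2 * r + k) := by
    refine h1.of_bij (fun z => match z with
      | .inl k => ⟨k.val + 1, by omega⟩
      | .inr true => ⟨0, by omega⟩
      | .inr false => ⟨2 * r + 2, by omega⟩) ?_ ?_
    · rw [Fintype.bijective_iff_injective_and_card]
      refine ⟨?_, by simp⟩
      rintro (x | a) (y | b) hxy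
      · simp only [Fin.mk.injEq] at hxy
        congr 1
        apply Fin.ext
        omega
      · have := x.2

        cases b <;> simp only [Fin.mk.injEq] at hxy <;> omega
      · have := y.2
        cases a <;> simp only [Fin.mk.injEq] at hxy <;> omega
      · cases a <;> cases b <;> simp only [Fin.mk.injEq] at hxy <;> first | rfl | omega
    · rintro (x | a) (y | b)
      · simp only [ext, Function.swap, F]
        have := x.2
        have := y.2
        omega
      · cases b
        · simp only [ext, Function.swap, F, V]
          have := x.2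
          omega
        · simp only [ext, Function.swap, F, U]
          have := x.2
          (first | omega | (simp only [false_or, or_false, and_false, false_and, true_or, or_true, true_and, and_true, iff_true, iff_false, true_iff, false_iff, not_true, not_false_eq_true, Nat.zero_mod] <;> omega) | (simp <;> omega))
      · have := y.2
        cases a <;> simp only [ext, Function.swap, F] <;> (first | omega | (simp only [false_or, or_false, and_false, false_and, true_or, or_true, true_and, and_true, iff_true, iff_false, true_iff, false_iff, not_true, not_false_eq_true, Nat.zero_mod] <;> omega) | (simp <;> omega))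
      · cases a <;> cases b <;> simp only [ext, Function.swap, F] <;> simp
  have h3 := h2.swap
  exact h3

theorem good_even {k : ℕ} (h : Good (F (2 * r + 2) (2 * r + 1)) k) :
    Good (F (2 * r + 4) (2 * r + 3)) (2 * r + 1 + k) := by
  obtain ⟨n, c, p⟩ := stages (m := 2 * r + 2) (r := r) (by omega) (by omega)
  have s1 : Step (ext (F (2 * r + 2) (2 * r)) (fun _ => True) (V (2 * r + 2) r 0))
      (os (F (2 * r + 2) (2 * r))) := by
    refine step_ext_V (x := ⟨2 * r + 1, by omega⟩) ?_ ?_
    · simp only [V]; omega
    · intro y
      have := y.2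
      simp only [V, Fin.ext_iff, true_iff]
      omega
  have s2 : Step (os (F (2 * r + 2) (2 * r))) (os (F (2 * r + 2) (2 * r + 1))) :=
    step_ext_base (F_step (by omega))
  have nf : ¬ FPP (os (F (2 * r + 2) (2 * r))) := by
    rw [fpp_os_iff (F_po _ _)]
    exact F_not_fpp (by omega)
  have hf : FPP (os (F (2 * r + 2) (2 * r + 1))) := by
    rw [fpp_os_iff (F_po _ _)]
    exact F_fpp (2 * r + 1)
  have p1 := Path.single p.po_right (os_po (F_po _ _)) s1
  have p2 := Path.single (os_po (F_po _ _)) (os_po (F_po _ _)) s2
  rw [sw_eq_zero nf] at p1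
  rw [sw_eq_one nf hf] at p2
  have p3 := ((p.append p1).append p2).cast (k' := 2 * r + 1) rfl (by omega) rfl
  have h1 := Good.prepend p3 h.os
  refine h1.of_bij (fun z => match z with
      | .inl k => if k.val ≤ 2 * r then ⟨k.val + 2, by omega⟩ else ⟨0, by omega⟩
      | .inr true => ⟨1, by omega⟩
      | .inr false => ⟨2 * r + 3, by omega⟩) ?_ ?_
  · rw [Fintype.bijective_iff_injective_and_card]
    refine ⟨?_, by simp⟩
    rintro (x | a) (y | b) hxy
    · simp only at hxy
      congr 1
      apply Fin.ext
      have := x.2
      have := y.2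
      split_ifs at hxy <;> simp only [Fin.mk.injEq] at hxy <;> omega
    · have := x.2
      cases b <;> simp only at hxy <;> split_ifs at hxy <;> simp only [Fin.mk.injEq] at hxy <;> omega
    · have := y.2
      cases a <;> simp only at hxy <;> split_ifs at hxy <;> simp only [Fin.mk.injEq] at hxy <;> omega
    · cases a <;> cases b <;> simp only [Fin.mk.injEq] at hxy <;> first | rfl | omega
  · rintro (x | a) (y | b)
    · have := x.2
      have := y.2
      simp only [ext, F]
      split_ifs <;> (first | omega | (simp only [false_or, or_false, and_false, false_and, true_or, or_true, true_and, and_true, iff_true, iff_false, true_iff, false_iff, not_true, not_false_eq_true, Nat.zero_mod] <;> omega) | (simp <;> omega))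
    · have := x.2
      cases b
      · simp only [ext, F, V]
        split_ifs <;> (first | omega | (simp only [false_or, or_false, and_false, false_and, true_or, or_true, true_and, and_true, iff_true, iff_false, true_iff, false_iff, not_true, not_false_eq_true, Nat.zero_mod] <;> omega) | (simp <;> omega))
      · simp only [ext, F, U]
        split_ifs <;> (first | omega | (simp only [false_or, or_false, and_false, false_and, true_or, or_true, true_and, and_true, iff_true, iff_false, true_iff, false_iff, not_true, not_false_eq_true, Nat.zero_mod] <;> omega) | (simp <;> omega))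
    · have := y.2
      cases a <;> simp only [ext, F] <;> split_ifs <;> (first | omega | (simp only [false_or, or_false, and_false, false_and, true_or, or_true, true_and, and_true, iff_true, iff_false, true_iff, false_iff, not_true, not_false_eq_true, Nat.zero_mod] <;> omega) | (simp <;> omega))
    · cases a <;> cases b <;> simp only [ext, F] <;> simp

theorem good_F : ∀ m, Good (F (m + 1) m) ((m - 1) ^ 2 / 4)
  | 0 => ⟨_, 0, 0, .nil (F_po _ _), fun x y => Or.inl (Or.inl (by omega))⟩
  | 1 => ⟨_, 0, 0, .nil (F_po _ _), fun x y => by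
      have := x.2
      have := y.2
      unfold F
      omega⟩
  | m + 2 => by
    have ih := good_F m
    rcases Nat.even_or_odd' m with ⟨r, rfl | rfl⟩
    · have h := good_odd ih
      have e : 2 * r + (2 * r - 1) ^ 2 / 4 = (2 * r + 2 - 1) ^ 2 / 4 := by
        rcases r with _ | r
        · simp
        · have e1 : 2 * (r + 1) - 1 = 2 * r + 1 := by omega
          have e2 : 2 * (r + 1) + 2 - 1 = 2 * r + 3 := by omega
          rw [e1, e2]
          have e3 : (2 * r + 1) ^ 2 = 1 + 4 * (r * r + r) := by ring
          have e4 : (2 * r + 3) ^ 2 = 1 + 4 * (r * r + 3 * r + 2) := by ring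
          rw [e3, e4]
          omega
      rw [e] at h
      exact h
    · have h := good_even ih
      have e : 2 * r + 1 + (2 * r + 1 - 1) ^ 2 / 4 = (2 * r + 1 + 2 - 1) ^ 2 / 4 := by
        have e1 : 2 * r + 1 - 1 = 2 * r := by omega
        have e2 : 2 * r + 1 + 2 - 1 = 2 * r + 2 := by omega
        rw [e1, e2]
        have e3 : (2 * r) ^ 2 = 4 * (r * r) := by ring
        have e4 : (2 * r + 2) ^ 2 = 4 * (r * r + 2 * r + 1) := by ring
        rw [e3, e4]
        omega
      rw [e] at h
      exact h

/-- the path with many switches -/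
theorem good_eq (m : ℕ) : Good (Eq : Fin (m + 2) → Fin (m + 2) → Prop) (1 + m ^ 2 / 4) := by
  obtain ⟨n, c, p⟩ := path_F_full m
  have := Good.prepend p (good_F (m + 1))
  simpa using this

end Q10.Fpp
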